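import Pool.Agent.Run7.h371.FJ.Qt

/-!
# Branches at a vertex of the quotient tree

`R` is a family of subgroups of the vertex groups which agree on the edge groups, `S` is a transversal for
the group `N` generated by the family, `s` is in `S` and its orbit `O` under `N` is invariant under `G`.
Two neighbours `a`, `b` of a vertex `w` are related if `w` is not in `O` or `b` is in the orbit of `a`
under `R w`.
-/

set_option autoImplicit false

namespace Run7.h371.FK

open SimpleGraph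
open scoped commutatorElement
open Pool.Agent.N509.TK
open Run7.h371.FJ

variable {G V : Type} {T : SimpleGraph V} [Group G] [MulAction G V] {R : V → Subgroup G}
  {O : V → Prop} {S : Set V} {s : V}

/-- the relation on the links -/
def br (R : V → Subgroup G) (O : V → Prop) (w a b : V) : Prop := O w → ∃ n ∈ R w, n • a = b

theorem br_LR (hR : Fm T R) (hO : ∀ (g : G) (w : V), O w → O (g • w)) : LR G T (br R O) where
  refl w a _ _ := ⟨1, one_mem _, one_smul G a⟩
  symm w a b _ _ h hw := by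
    obtain ⟨n, hn, h1⟩ := h hw
    exact ⟨n⁻¹, inv_mem hn, by rw [← h1, inv_smul_smul]⟩
  trans w a b c _ _ _ h h' hw := by
    obtain ⟨n, hn, h1⟩ := h hw
    obtain ⟨n', hn', h2⟩ := h' hw
    exact ⟨n' * n, mul_mem hn' hn, by rw [mul_smul, h1, h2]⟩
  eqv g w a b h hw := by
    have hw' : O w := by
      have h1 := hO g⁻¹ _ hw
      rwa [inv_smul_smul] at h1
    obtain ⟨n, hn, h1⟩ := h hw'
    refine ⟨g * n * g⁻¹, hR.eqv g w n hn, ?_⟩
    rw [mul_smul, inv_smul_smul, mul_smul, h1]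

theorem br_R {v a : V} {x : G} (hx : x ∈ R v) : br R O v a (x • a) := fun _ => ⟨x, hx, rfl⟩

/-- the branch of a vertex -/
def La (T : SimpleGraph V) (N : Subgroup G) (S : Set V) (s v c : V) : Prop :=
  ∃ h ∈ N, ∃ t ∈ S, v = h • t ∧ St T s c t

theorem La.adj {N : Subgroup G} (hq : Tq T N S)
    (hact : ∀ (g : G) (u v : V), T.Adj u v → T.Adj (g • u) (g • v))
    {v v' c : V} (hv' : ∀ n ∈ N, v' ≠ n • s) (h : T.Adj v v') (hc : La T N S s v c) :
    La T N S s v' c := by
  obtain ⟨k, hk, t, ht, rfl, hst⟩ := hc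
  have h1 := hact k⁻¹ _ _ h
  rw [inv_smul_smul] at h1
  obtain ⟨u, hu, h2, r, hr, hrt, hru⟩ := hq.max t ht _ h1
  have h3 : v' = (k * r) • u := by rw [mul_smul, hru, smul_inv_smul]
  refine ⟨k * r, mul_mem hk hr, u, hu, h3, St_walk hst (Walk.cons h2 Walk.nil) ?_⟩
  simp only [Walk.support_cons, Walk.support_nil, List.mem_cons, List.not_mem_nil, or_false]
  rintro (h4 | h4)
  · exact hst.ne h4
  · exact hv' (k * r) (mul_mem hk hr) (by rw [h4]; exact h3)

/-- two vertices of the orbit of `s` are not adjacent -/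
theorem orb_adj {N : Subgroup G} (hq : Tq T N S)
    (hact : ∀ (g : G) (u v : V), T.Adj u v → T.Adj (g • u) (g • v)) (hs : s ∈ S) {n n' : G}
    (hn : n ∈ N) (hn' : n' ∈ N) : ¬ T.Adj (n • s) (n' • s) := by
  intro h
  have h1 := hact n⁻¹ _ _ h
  rw [inv_smul_smul, ← mul_smul] at h1
  obtain ⟨u, hu, h2, r, hr, hrt, hru⟩ := hq.max s hs _ h1
  have h3 : u = s := hq.trans ((n⁻¹ * n')⁻¹ * r)
    (mul_mem (inv_mem (mul_mem (inv_mem hn) hn')) hr) u hu s hs (by rw [mul_smul, hru, inv_smul_smul])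
  exact h2.ne h3.symm

/-- the branch of an edge -/
def Lb (T : SimpleGraph V) (N : Subgroup G) (S : Set V) (O : V → Prop) (s c : V) (p : V × V) : Prop :=
  (¬ O p.1 ∧ La T N S s p.1 c) ∨ (¬ O p.2 ∧ La T N S s p.2 c)

theorem Lb_swap {N : Subgroup G} {c : V} {p : V × V} :
    Lb T N S O s c p.swap ↔ Lb T N S O s c p := Or.comm

variable {N : Subgroup G}

theorem Lb_step (hq : Tq T N S)
    (hact : ∀ (g : G) (u v : V), T.Adj u v → T.Adj (g • u) (g • v)) (hs : s ∈ S)
    (hO : ∀ w, O w ↔ ∃ n ∈ N, w = n • s) (hRN : ∀ v, R v ≤ N) {w a b c : V} (ha : T.Adj w a)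
    (hb : T.Adj w b) (hab : br R O w a b) (h : Lb T N S O s c (w, a)) : Lb T N S O s c (w, b) := by
  by_cases hw : O w
  · rcases h with ⟨h1, _⟩ | ⟨h1, h2⟩
    · exact absurd hw h1
    · obtain ⟨n, hn, rfl⟩ := hab hw
      obtain ⟨k, hk, t, ht, h3, hst⟩ := h2
      have h3 : a = k • t := h3
      right
      refine ⟨fun h4 => ?_, n * k, mul_mem (hRN w hn) hk, t, ht, ?_, hst⟩
      · obtain ⟨m, hm, h5⟩ := (hO _).1 h4
        refine h1 ((hO _).2 ⟨n⁻¹ * m, mul_mem (inv_mem (hRN w hn)) hm, ?_⟩)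
        have h5 : n • a = m • s := h5
        show a = (n⁻¹ * m) • s
        rw [mul_smul, ← h5, inv_smul_smul]
      · show n • a = (n * k) • t
        rw [mul_smul, ← h3]
  · left
    refine ⟨hw, ?_⟩
    rcases h with ⟨_, h2⟩ | ⟨h1, h2⟩
    · exact h2
    · exact La.adj hq hact (fun n hn h3 => hw ((hO _).2 ⟨n, hn, h3⟩)) ha.symm h2

theorem Lb_gen (hq : Tq T N S) (hR : Fm T R)
    (hact : ∀ (g : G) (u v : V), T.Adj u v → T.Adj (g • u) (g • v)) (hs : s ∈ S)
    (hO : ∀ w, O w ↔ ∃ n ∈ N, w = n • s) (hRN : ∀ v, R v ≤ N)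
    (hOG : ∀ (g : G) (w : V), O w → O (g • w)) {c : V}
    {p q : Dt T} (h : Relation.EqvGen (lk T (br R O)) p q) :
    Lb T N S O s c p.1 ↔ Lb T N S O s c q.1 := by
  have hLR := br_LR hR hOG
  induction h with
  | rel x y h =>
    obtain ⟨⟨a, b⟩, hab⟩ := x
    obtain ⟨⟨a', b'⟩, hab'⟩ := y
    have hab : T.Adj a b := hab
    have hab' : T.Adj a' b' := hab'
    rcases h with h | ⟨h1, h2⟩
    · have h3 : ((a', b') : V × V) = ((a, b) : V × V).swap := h
      show Lb T N S O s c (a, b) ↔ Lb T N S O s c (a', b')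
      rw [h3]
      exact Lb_swap.symm
    · have h1 : a = a' := h1
      subst h1
      have h2 : br R O a b b' := h2
      exact ⟨fun h => Lb_step hq hact hs hO hRN hab hab' h2 h,
        fun h => Lb_step hq hact hs hO hRN hab' hab (hLR.symm a b b' hab hab' h2) h⟩
  | refl x => exact Iff.rfl
  | symm x y _ ih => exact ih.symm
  | trans x y z _ _ ih1 ih2 => exact ih1.trans ih2

/-- **two edges of a cylinder which start in the orbit of `s` are in the same orbit under `N`** -/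
theorem br_trans (hT : T.IsTree) (hq : Tq T N S) (hR : Fm T R)
    (hact : ∀ (g : G) (u v : V), T.Adj u v → T.Adj (g • u) (g • v)) (hs : s ∈ S)
    (hO : ∀ w, O w ↔ ∃ n ∈ N, w = n • s) (hRN : ∀ v, R v ≤ N)
    (hOG : ∀ (g : G) (w : V), O w → O (g • w)) {u a v b : V} (hu : O u) (hv : O v)
    (hua : T.Adj u a) (hvb : T.Adj v b) (h : cy (br R O) hua = cy (br R O) hvb) :
    ∃ x ∈ N, x • u = v ∧ x • a = b := by
  have key : ∀ u a : V, O u → T.Adj u a → ∃ n ∈ N, ∃ c ∈ S, T.Adj s c ∧ u = n • s ∧ a = n • c := by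
    intro u a hu hua
    obtain ⟨n, hn, rfl⟩ := (hO u).1 hu
    have h1 := hact n⁻¹ _ _ hua
    rw [inv_smul_smul] at h1
    obtain ⟨c, hc, h2, r, hr, hrs, hrc⟩ := hq.max s hs _ h1
    exact ⟨n * r, mul_mem hn hr, c, hc, h2, by rw [mul_smul, hrs], by
      rw [mul_smul, hrc, smul_inv_smul]⟩
  obtain ⟨n, hn, c, hc, hsc, rfl, rfl⟩ := key u a hu hua
  obtain ⟨n', hn', c', hc', hsc', rfl, rfl⟩ := key v b hv hvb
  have hnO : ∀ (m : G) (d : V), m ∈ N → d ∈ S → T.Adj s d → ¬ O (m • d) := by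
    intro m d hm hd hsd h1
    obtain ⟨k, hk, h2⟩ := (hO _).1 h1
    have h3 : d = s := hq.trans (k⁻¹ * m) (mul_mem (inv_mem hk) hm) d hd s hs
      (by rw [mul_smul, h2, inv_smul_smul])
    exact hsd.ne h3.symm
  have h1 : Lb T N S O s c (n • s, n • c) :=
    Or.inr ⟨hnO n c hn hc hsc, n, hn, c, hc, rfl, St_adj hsc⟩
  have h2 : Lb T N S O s c (n' • s, n' • c') :=
    (Lb_gen (p := dt hua) (q := dt hvb) hq hR hact hs hO hRN hOG (Quotient.exact h)).1 h1
  rcases h2 with ⟨h3, _⟩ | ⟨_, k, hk, t, ht, h3, hst⟩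
  · exact absurd hv h3
  · have h3 : n' • c' = k • t := h3
    have h4 : t = c' := hq.trans (n'⁻¹ * k) (mul_mem (inv_mem hn') hk) t ht c' hc'
      (by rw [mul_smul, ← h3, inv_smul_smul])
    subst h4
    have h5 : c = t := St_unique hT.isAcyclic hst (St_adj hsc')
    subst h5
    exact ⟨n' * n⁻¹, mul_mem hn' (inv_mem hn), by rw [mul_smul, inv_smul_smul], by
      rw [mul_smul, inv_smul_smul]⟩

end Run7.h371.FK
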