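import Pool.Agent.Run7.h371.FK.Br

/-!
# The groups of the cylinders
-/

set_option autoImplicit false

namespace Run7.h371.FK

open SimpleGraph
open scoped commutatorElement
open Pool.Agent.N509.TK
open Run7.h371.FJ

variable {G V : Type} {T : SimpleGraph V} [Group G] [MulAction G V] {R : V → Subgroup G}
  {r : V → V → V → Prop}

/-- the group of a cylinder -/
def Nc (R : V → Subgroup G) (y : Cyl T r) : Subgroup G := ⨆ i : {v : V // Mem y v}, R i.1

theorem le_Nc {y : Cyl T r} {v : V} (hv : Mem y v) : R v ≤ Nc R y :=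
  le_iSup (fun i : {v : V // Mem y v} => R i.1) ⟨v, hv⟩

theorem Nc_le (y : Cyl T r) : Nc R y ≤ ⨆ v, R v := iSup_le fun i => le_iSup R i.1

/-- the group generated by the commutator subgroups of the groups of the cylinders -/
def Mg (T : SimpleGraph V) (r : V → V → V → Prop) (R : V → Subgroup G) : Subgroup G :=
  ⨆ y : Cyl T r, ⁅Nc R y, Nc R y⁆

theorem le_Mg (y : Cyl T r) : ⁅Nc R y, Nc R y⁆ ≤ Mg T r R :=
  le_iSup (fun y : Cyl T r => ⁅Nc R y, Nc R y⁆) y

theorem Mg_le : Mg T r R ≤ ⁅(⨆ v, R v), (⨆ v, R v)⁆ :=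
  iSup_le fun y => Subgroup.commutator_mono (Nc_le y) (Nc_le y)

/-- the family on the tree of the vertices and cylinders -/
def Rb (R : V → Subgroup G) : V ⊕ Cyl T r → Subgroup G := Sum.elim R (Nc R)

section act

variable [MulAction G (Cyl T r)]
  {hact : ∀ (g : G) (u v : V), T.Adj u v → T.Adj (g • u) (g • v)}

/-- the action on the cylinders is the natural one -/
def Nat' (hact : ∀ (g : G) (u v : V), T.Adj u v → T.Adj (g • u) (g • v))
    (r : V → V → V → Prop) [MulAction G (Cyl T r)] : Prop :=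
  ∀ (g : G) {v a : V} (h : T.Adj v a), g • (cy r h) = cy r (hact g v a h)

theorem Mem_smul (hcs : Nat' hact r) (g : G) {y : Cyl T r} {v : V} (h : Mem y v) :
    Mem (g • y) (g • v) := by
  obtain ⟨a, ha, rfl⟩ := h
  exact ⟨g • a, hact g v a ha, (hcs g ha).symm⟩

theorem BB_smul (hcs : Nat' hact r) (g : G) (x x' : V ⊕ Cyl T r) (h : (BB T r).Adj x x') :
    (BB T r).Adj (g • x) (g • x') := by
  rcases BB_cases h with ⟨v, y, rfl, rfl, h1⟩ | ⟨v, y, rfl, rfl, h1⟩
  · exact Or.inl ⟨g • v, g • y, rfl, rfl, Mem_smul hcs g h1⟩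
  · exact Or.inr ⟨g • v, g • y, rfl, rfl, Mem_smul hcs g h1⟩

theorem Nc_fix (hcs : Nat' hact r) (hR : Fm T R)
    (hRr : ∀ (v a : V) (x : G), x ∈ R v → T.Adj v a → r v a (x • a)) {y : Cyl T r} {x : G}
    (hx : x ∈ Nc R y) : x • y = y := by
  have h1 : Nc R y ≤ MulAction.stabilizer G y := by
    refine iSup_le ?_
    rintro ⟨v, a, ha, rfl⟩ x hx
    have hx : x ∈ R v := hx
    show x • (cy r ha) = cy r ha
    have h2 := hact x v a ha
    rw [hR.fix v x hx] at h2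
    rw [hcs x ha, cy_congr (hact x v a ha) h2 (hR.fix v x hx) rfl]
    exact (cy_rel ha h2 (hRr v a x hx ha)).symm
  exact h1 hx

theorem Nc_conj (hcs : Nat' hact r) (hR : Fm T R) (g : G) {y : Cyl T r} {x : G}
    (hx : x ∈ Nc R y) : g * x * g⁻¹ ∈ Nc R (g • y) := by
  have h1 : Nc R y ≤ (Nc R (g • y)).comap (MulAut.conj g).toMonoidHom :=
    iSup_le fun i x hx => le_Nc (Mem_smul hcs g i.2) (hR.eqv g i.1 x hx)
  exact h1 hx

theorem comm_conj (hcs : Nat' hact r) (hR : Fm T R) (g : G) {y : Cyl T r} {x : G}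
    (hx : x ∈ ⁅Nc R y, Nc R y⁆) : g * x * g⁻¹ ∈ ⁅Nc R (g • y), Nc R (g • y)⁆ := by
  have h1 : (⁅Nc R y, Nc R y⁆).map (MulAut.conj g).toMonoidHom ≤
      ⁅Nc R (g • y), Nc R (g • y)⁆ := by
    rw [Subgroup.map_commutator]
    have h2 : (Nc R y).map (MulAut.conj g).toMonoidHom ≤ Nc R (g • y) := by
      rw [Subgroup.map_le_iff_le_comap]
      intro x hx
      exact Nc_conj hcs hR g hx
    exact Subgroup.commutator_mono h2 h2
  exact h1 ⟨x, hx, rfl⟩

theorem Mg_normal (hcs : Nat' hact r) (hR : Fm T R) : (Mg T r R).Normal := by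
  refine ⟨fun x hx g => ?_⟩
  have h1 : Mg T r R ≤ (Mg T r R).comap (MulAut.conj g).toMonoidHom :=
    iSup_le fun y x hx => le_Mg (g • y) (comm_conj hcs hR g hx)
  exact h1 hx

theorem Rb_Fm (hT : T.IsTree) (hcs : Nat' hact r) (hR : Fm T R)
    (hRr : ∀ (v a : V) (x : G), x ∈ R v → T.Adj v a → r v a (x • a)) : Fm (BB T r) (Rb R) where
  fix x := by
    rcases x with v | y
    · intro x hx
      exact congrArg Sum.inl (hR.fix v x hx)
    · intro x hx
      exact congrArg Sum.inr (Nc_fix hcs hR hRr hx)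
  eqv g x := by
    rcases x with v | y
    · intro x hx
      exact hR.eqv g v x hx
    · intro x hx
      exact Nc_conj hcs hR g hx
  cmp x x' h := by
    rcases BB_cases h with ⟨v, y, rfl, rfl, h1⟩ | ⟨v, y, rfl, rfl, h1⟩
    · intro z hz hzv
      exact hR.stab hT hact (Nc_le y hz) (Sum.inl_injective hzv)
    · intro z hz _
      exact le_Nc h1 hz

/-- the stabilizer of a cylinder in the group generated by the family -/
theorem Nc_stab (hT : T.IsTree) (hr : LR G T r) (hcs : Nat' hact r) (hR : Fm T R)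
    (hRr : ∀ (v a : V) (x : G), x ∈ R v → T.Adj v a → r v a (x • a)) {y : Cyl T r} {x : G}
    (hx : x ∈ ⨆ v, R v) (hxy : x • y = y) : x ∈ Nc R y := by
  have h1 : (⨆ v, R v) ≤ ⨆ z : V ⊕ Cyl T r, Rb R z :=
    iSup_le fun v => le_iSup (fun z : V ⊕ Cyl T r => Rb R z) (Sum.inl v)
  exact (Rb_Fm hT hcs hR hRr).stab (BB_tree hT hr) (BB_smul hcs) (h1 hx) (v := Sum.inr y)
    (congrArg Sum.inr hxy)

end act

section orbit

variable {O : V → Prop} {S : Set V} {s : V} [MulAction G (Cyl T (br R O))]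
  {hact : ∀ (g : G) (u v : V), T.Adj u v → T.Adj (g • u) (g • v)}

theorem hRr {v a : V} {x : G} (hx : x ∈ R v) (_ : T.Adj v a) : br R O v a (x • a) := br_R hx

/-- two vertices of a cylinder in the orbit of `s` -/
theorem trans_y (hT : T.IsTree) (hcs : Nat' hact (br R O)) (hR : Fm T R)
    (hq : Tq T (⨆ v, R v) S) (hs : s ∈ S) (hO : ∀ w, O w ↔ ∃ n ∈ ⨆ v, R v, w = n • s)
    (hOG : ∀ (g : G) (w : V), O w → O (g • w)) {y : Cyl T (br R O)} {u v : V} (hu : O u) (hv : O v)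
    (hyu : Mem y u) (hyv : Mem y v) : ∃ x ∈ Nc R y, x • u = v := by
  obtain ⟨a, ha, hya⟩ := hyu
  obtain ⟨b, hb, hyb⟩ := hyv
  obtain ⟨x, hx, h1, h2⟩ := br_trans hT hq hR hact hs hO (fun v => le_iSup R v) hOG hu hv ha hb
    (hya.trans hyb.symm)
  refine ⟨x, Nc_stab hT (br_LR hR hOG) hcs hR (fun v a x hx h => hRr hx h) hx ?_, h1⟩
  rw [← hya, hcs x ha, cy_congr (hact x u a ha) hb h1 h2, hyb, hya]

theorem R_le (hT : T.IsTree) (hcs : Nat' hact (br R O)) (hR : Fm T R)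
    (hq : Tq T (⨆ v, R v) S) (hs : s ∈ S) (hO : ∀ w, O w ↔ ∃ n ∈ ⨆ v, R v, w = n • s)
    (hOG : ∀ (g : G) (w : V), O w → O (g • w)) {y : Cyl T (br R O)} {u v : V} (hu : O u) (hv : O v)
    (hyu : Mem y u) (hyv : Mem y v) : R v ≤ R u ⊔ Mg T (br R O) R := by
  obtain ⟨x, hx, rfl⟩ := trans_y hT hcs hR hq hs hO hOG hu hv hyu hyv
  intro ρ hρ
  have h1 := hR.eqv x⁻¹ _ ρ hρ
  rw [inv_smul_smul, inv_inv] at h1
  obtain ⟨σ, hσ⟩ : ∃ σ, σ = x⁻¹ * ρ * x := ⟨_, rfl⟩
  rw [← hσ] at h1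
  have h2 : ρ = σ * ⁅σ⁻¹, x⁆ := by
    rw [commutatorElement_def, hσ]
    group
  rw [h2]
  exact mul_mem (Subgroup.mem_sup_left h1) (Subgroup.mem_sup_right
    (le_Mg y (Subgroup.commutator_mem_commutator (inv_mem (le_Nc hyu h1)) hx)))

/-- the cylinders at a vertex which is not in the orbit of `s` -/
theorem cy_one {v : V} (hv : ¬ O v) {y y' : Cyl T (br R O)} (h : Mem y v) (h' : Mem y' v) :
    y = y' := by
  obtain ⟨a, ha, rfl⟩ := h
  obtain ⟨b, hb, rfl⟩ := h'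
  exact cy_rel ha hb fun hv' => absurd hv' hv

theorem meets (hT : T.IsTree) (hsO : O s) (y : Cyl T (br R O)) : ∃ u, O u ∧ Mem y u := by
  have key : ∀ {v w : V}, T.Walk w v → (∀ y : Cyl T (br R O), Mem y w → ∃ u, O u ∧ Mem y u) →
      ∀ y : Cyl T (br R O), Mem y v → ∃ u, O u ∧ Mem y u := by
    intro v w p
    induction p with
    | nil => exact fun h => h
    | @cons a b c hab p ih =>
      intro h
      refine ih fun y hy => ?_
      by_cases hb : O b
      · exact ⟨b, hb, hy⟩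
      · have h1 := cy_one hb hy (Mem_cy' (r := br R O) hab)
        subst h1
        exact h _ (Mem_cy hab)
  obtain ⟨⟨⟨v, a⟩, h⟩, rfl⟩ := Quotient.exists_rep y
  obtain ⟨p⟩ := hT.connected.preconnected s v
  exact key p (fun y hy => ⟨s, hsO, hy⟩) _ (Mem_cy (r := br R O) h)

/-- the group `R s M` -/
theorem all_le' (hT : T.IsTree) (hcs : Nat' hact (br R O)) (hR : Fm T R)
    (hq : Tq T (⨆ v, R v) S) (hs : s ∈ S) (hO : ∀ w, O w ↔ ∃ n ∈ ⨆ v, R v, w = n • s)
    (hOG : ∀ (g : G) (w : V), O w → O (g • w)) {u0 u : V} (hu0 : O u0) (hu : O u) :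
    R u ≤ R u0 ⊔ Mg T (br R O) R := by
  have key : ∀ {v w : V}, T.Walk w v →
      (∀ (y : Cyl T (br R O)), Mem y w → ∀ u, O u → Mem y u → R u ≤ R u0 ⊔ Mg T (br R O) R) →
      ∀ (y : Cyl T (br R O)), Mem y v → ∀ u, O u → Mem y u → R u ≤ R u0 ⊔ Mg T (br R O) R := by
    intro v w p
    induction p with
    | nil => exact fun h => h
    | @cons a b c hab p ih =>
      intro h
      refine ih fun y hy u hu hyu => ?_
      by_cases hb : O b
      · have h1 := h _ (Mem_cy hab) b hb (Mem_cy' hab)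
        refine (R_le hT hcs hR hq hs hO hOG hb hu hy hyu).trans (sup_le h1 le_sup_right)
      · have h1 := cy_one hb hy (Mem_cy' (r := br R O) hab)
        subst h1
        exact h _ (Mem_cy hab) u hu hyu
  by_cases hus : u = u0
  · rw [hus]
    exact le_sup_left
  · obtain ⟨a, ha⟩ := St_exists hT hus
    obtain ⟨p⟩ := hT.connected.preconnected u0 u
    refine key p (fun y hy u hu hyu => R_le hT hcs hR hq hs hO hOG hu0 hu hy hyu) _
      (Mem_cy (r := br R O) ha.1) u hu (Mem_cy ha.1)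

theorem all_le (hT : T.IsTree) (hcs : Nat' hact (br R O)) (hR : Fm T R)
    (hq : Tq T (⨆ v, R v) S) (hs : s ∈ S) (hO : ∀ w, O w ↔ ∃ n ∈ ⨆ v, R v, w = n • s)
    (hOG : ∀ (g : G) (w : V), O w → O (g • w)) {u : V} (hu : O u) :
    R u ≤ R s ⊔ Mg T (br R O) R :=
  all_le' hT hcs hR hq hs hO hOG ((hO s).2 ⟨1, one_mem _, (one_smul G s).symm⟩) hu

theorem Mp_normal (hT : T.IsTree) (hcs : Nat' hact (br R O)) (hR : Fm T R)
    (hq : Tq T (⨆ v, R v) S) (hs : s ∈ S) (hO : ∀ w, O w ↔ ∃ n ∈ ⨆ v, R v, w = n • s)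
    (hOG : ∀ (g : G) (w : V), O w → O (g • w)) : (R s ⊔ Mg T (br R O) R).Normal := by
  have hsO : O s := (hO s).2 ⟨1, one_mem _, (one_smul G s).symm⟩
  refine ⟨fun x hx g => ?_⟩
  have h1 : R s ⊔ Mg T (br R O) R ≤
      (R s ⊔ Mg T (br R O) R).comap (MulAut.conj g).toMonoidHom := by
    refine sup_le ?_ ?_
    · intro x hx
      exact all_le hT hcs hR hq hs hO hOG (hOG g s hsO) (hR.eqv g s x hx)
    · intro x hx
      exact Subgroup.mem_sup_right ((Mg_normal hcs hR).conj_mem x hx g)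
  exact h1 hx

end orbit

end Run7.h371.FK
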