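import Pool.Agent.Run7.h371.FK.Fa

/-!
# Acylindrical actions on trees of cylinders
-/

set_option autoImplicit false

namespace Run7.h371.FK

open SimpleGraph
open Pool.Agent.N509.TK
open Pool.Agent.Y110.FJ
open Pool.Agent.N509.TX (AcylF C_edge C_stab of_fg of_fg_mem)
open Pool.Agent.R941.FJ (C_equiv C_le C_cyc mem_sup_normal)
open Run7.h371.FJ

variable {C : ∀ (G : Type) [Group G], Prop}
variable {G V : Type} {T : SimpleGraph V} [Group G] [MulAction G V] {r : V → V → V → Prop}

/-- a chain of `k` cylinders: `v i` and `v (i + 1)` are different vertices of the cylinder `y i`, and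
consecutive cylinders are different -/
def Chn (k : ℕ) (v : ℕ → V) (y : ℕ → Cyl T r) : Prop :=
  (∀ i, i < k → Mem (y i) (v i) ∧ Mem (y i) (v (i + 1)) ∧ v i ≠ v (i + 1)) ∧
    ∀ i, i + 1 < k → y i ≠ y (i + 1)

/-- at most `n` elements fix the vertices of a chain of `k` cylinders -/
def Acy (G : Type) {V : Type} [Group G] [MulAction G V] (T : SimpleGraph V)
    (r : V → V → V → Prop) (k n : ℕ) : Prop :=
  ∀ (v : ℕ → V) (y : ℕ → Cyl T r), Chn k v y →
    ∀ F : Finset G, (∀ g ∈ F, ∀ i, i ≤ k → g • v i = v i) → F.card ≤ n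

/-- paths in the tree of cylinders contain chains -/
theorem chain_of_path {x x' : V ⊕ Cyl T r} (p : (BB T r).Walk x x') (hp : p.IsPath) (k : ℕ)
    (hk : 2 * k + 1 ≤ p.length) : ∃ (v : ℕ → V) (y : ℕ → Cyl T r), Chn k v y ∧
      ∀ i, i ≤ k → Sum.inl (v i) ∈ p.support := by
  have hadj : ∀ i, i < p.length → (BB T r).Adj (p.getVert i) (p.getVert (i + 1)) :=
    fun i hi => p.adj_getVert_succ hi
  have hinj : ∀ i j, i ≤ p.length → j ≤ p.length → p.getVert i = p.getVert j → i = j :=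
    fun i j hi hj h => hp.getVert_injOn hi hj h
  obtain ⟨c, hc, v0, hv0⟩ : ∃ c, c ≤ 1 ∧ ∃ v0 : V, p.getVert c = Sum.inl v0 := by
    rcases BB_cases (hadj 0 (by omega)) with ⟨v, y, h1, _⟩ | ⟨v, y, h1, _⟩
    · exact ⟨0, by omega, v, h1⟩
    · exact ⟨1, le_rfl, v, h1⟩
  have hodd : ∀ i, i < k → ∀ v : V, p.getVert (2 * i + c) = Sum.inl v →
      ∃ y : Cyl T r, p.getVert (2 * i + 1 + c) = Sum.inr y ∧ Mem y v := by
    intro i hi v hv
    have h1 := hadj (2 * i + c) (by omega)
    have h2 : 2 * i + c + 1 = 2 * i + 1 + c := by omega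
    rw [h2] at h1
    rcases BB_cases h1 with ⟨v', y, h3, h4, h5⟩ | ⟨v', y, h3, h4, h5⟩
    · rw [hv] at h3
      have h3 := Sum.inl_injective h3
      subst h3
      exact ⟨y, h4, h5⟩
    · rw [hv] at h4
      exact absurd h4 (by simp)
  have heven : ∀ i, i < k → ∀ y : Cyl T r, p.getVert (2 * i + 1 + c) = Sum.inr y →
      ∃ v : V, p.getVert (2 * (i + 1) + c) = Sum.inl v ∧ Mem y v := by
    intro i hi y hy
    have h1 := hadj (2 * i + 1 + c) (by omega)
    have h2 : 2 * i + 1 + c + 1 = 2 * (i + 1) + c := by omega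
    rw [h2] at h1
    rcases BB_cases h1 with ⟨v', y', h3, h4, h5⟩ | ⟨v', y', h3, h4, h5⟩
    · rw [hy] at h3
      exact absurd h3 (by simp)
    · rw [hy] at h4
      have h4 := Sum.inr_injective h4
      subst h4
      exact ⟨v', h3, h5⟩
  have hall : ∀ i, ∃ v : V, i ≤ k → p.getVert (2 * i + c) = Sum.inl v := by
    intro i
    induction i with
    | zero => exact ⟨v0, fun _ => by rw [Nat.mul_zero, Nat.zero_add]; exact hv0⟩
    | succ i ih =>
      obtain ⟨v, hv⟩ := ih
      by_cases hi : i + 1 ≤ k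
      · obtain ⟨y, hy, _⟩ := hodd i (by omega) v (hv (by omega))
        obtain ⟨v', hv', _⟩ := heven i (by omega) y hy
        exact ⟨v', fun _ => hv'⟩
      · exact ⟨v0, fun h => absurd h hi⟩
  choose v hv using hall
  have hyex : ∃ y0 : Cyl T r, True := by
    rcases BB_cases (hadj 0 (by omega)) with ⟨_, y, _⟩ | ⟨_, y, _⟩
    · exact ⟨y, trivial⟩
    · exact ⟨y, trivial⟩
  obtain ⟨y0, _⟩ := hyex
  have hally : ∀ i, ∃ y : Cyl T r, i < k → p.getVert (2 * i + 1 + c) = Sum.inr y ∧ Mem y (v i) := by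
    intro i
    by_cases hi : i < k
    · obtain ⟨y, hy⟩ := hodd i hi (v i) (hv i hi.le)
      exact ⟨y, fun _ => hy⟩
    · exact ⟨y0, fun h => absurd h hi⟩
  choose y hy using hally
  refine ⟨v, y, ⟨?_, ?_⟩, ?_⟩
  · intro i hi
    obtain ⟨h1, h2⟩ := hy i hi
    obtain ⟨v', h3, h4⟩ := heven i hi (y i) h1
    rw [hv (i + 1) hi] at h3
    have h3 := Sum.inl_injective h3
    subst h3
    refine ⟨h2, h4, fun h5 => ?_⟩
    have h6 := hinj (2 * i + c) (2 * (i + 1) + c) (by omega) (by omega)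
      (by rw [hv i hi.le, hv (i + 1) hi, h5])
    omega
  · intro i hi h5
    have h6 := hinj (2 * i + 1 + c) (2 * (i + 1) + 1 + c) (by omega) (by omega)
      (by rw [(hy i (by omega)).1, (hy (i + 1) hi).1, h5])
    omega
  · intro i hi
    rw [← hv i hi]
    exact p.getVert_mem_support _

/-- **the theorem on cylinders for acylindrical actions** -/
theorem cylK (hC : ClosedE C) (hA : AcylF C) (hT : T.IsTree)
    (hact : ∀ (g : G) (u v : V), T.Adj u v → T.Adj (g • u) (g • v)) (hr : LR G T r) (k n : ℕ)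
    (hint : Acy G T r k n)
    (hV : ∀ v : V, C ↥(MulAction.stabilizer G v))
    (hY : ∀ (y : Cyl T r) (K : Subgroup G), (∀ g ∈ K, Pres hact y g) → C K) : C G := by
  classical
  refine of_fg hC fun H hfg => ?_
  have hactH : ∀ (g : H) (u v : V), T.Adj u v → T.Adj (g • u) (g • v) := fun g u v h => hact g u v h
  have hrH : LR H T r :=
    ⟨hr.refl, hr.symm, hr.trans, fun g w a b h => hr.eqv (g : G) w a b h⟩
  let _ := cyAct hactH hrH
  have hcs : Nat' hactH r := fun g {v a} h => rfl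
  refine hA H (V ⊕ Cyl T r) (BB T r) hfg (BB_tree hT hrH) (BB_smul hcs) ?_ ⟨2 * k + 1, n, ?_⟩ ?_
  · rintro g x x' h ⟨h1, _⟩
    rcases BB_cases h with ⟨v, y, rfl, rfl, _⟩ | ⟨v, y, rfl, rfl, _⟩
    · exact absurd h1 (by simp)
    · exact absurd h1 (by simp)
  · intro x x' p hp hlen F hF
    obtain ⟨v, y, hch, hv⟩ := chain_of_path p hp k hlen
    have h1 := hint v y hch (F.map ⟨Subtype.val, Subtype.val_injective⟩) (by
      intro g hg i hi
      rw [Finset.mem_map] at hg
      obtain ⟨z, hz, rfl⟩ := hg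
      exact Sum.inl_injective (hF z hz _ (hv i hi)))
    rwa [Finset.card_map] at h1
  · rintro (v | y)
    · refine C_le hC.base (H := MulAction.stabilizer H (Sum.inl v : V ⊕ Cyl T r))
        (K := MulAction.stabilizer H v) ?_ (C_stab hC H v (hV v))
      intro g hg
      exact Sum.inl_injective hg
    · refine C_equiv hC.base ((MulAction.stabilizer H
        (Sum.inr y : V ⊕ Cyl T r)).equivMapOfInjective H.subtype H.subtype_injective) (hY y _ ?_)
      rintro _ ⟨g, hg, rfl⟩ v a h hya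
      have h1 : g • y = y := Sum.inr_injective hg
      have h2 := hcs g h
      rw [hya, h1] at h2
      exact h2.symm

end Run7.h371.FK
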