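import Pool.Agent.Run7.h371.FK.Gen

/-!
# Special cases
-/

set_option autoImplicit false

namespace Run7.h371.FK

open SimpleGraph
open scoped commutatorElement
open Subgroup (Commensurable)
open Pool.Agent.N509.TK
open Pool.Agent.Y110.FJ
open Pool.Agent.N509.TX (AcylF C_edge C_stab of_fg of_fg_mem STree cyl_subtree)
open Pool.Agent.R941.FJ (C_equiv C_le C_cyc mem_sup_normal)
open Run7.h371.FJ

variable {C : ∀ (G : Type) [Group G], Prop}
variable {G V : Type} {T : SimpleGraph V} [Group G] [MulAction G V] {r : V → V → V → Prop}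

theorem mem_Eg {u v : V} {x : G} : x ∈ Eg G u v ↔ x • u = u ∧ x • v = v := Iff.rfl

theorem Eg_swap {u v : V} {x : G} (h : x ∈ Eg G u v) : x ∈ Eg G v u := ⟨h.2, h.1⟩

theorem Eg_conj (g : G) {u v : V} {x : G} (h : x ∈ Eg G u v) :
    g * x * g⁻¹ ∈ Eg G (g • u) (g • v) := by
  obtain ⟨h1, h2⟩ := h
  have h1 : x • u = u := h1
  have h2 : x • v = v := h2
  refine ⟨?_, ?_⟩
  · show (g * x * g⁻¹) • g • u = g • u
    rw [mul_smul, inv_smul_smul, mul_smul, h1]
  · show (g * x * g⁻¹) • g • v = g • v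
    rw [mul_smul, inv_smul_smul, mul_smul, h2]

theorem ri_one {A B : Subgroup G} (h : A ≤ B) : B.relIndex A ≠ 0 := by
  rw [Subgroup.relIndex_eq_one.2 h]
  exact one_ne_zero

/-- the elements which fix neighbours in different classes -/
theorem Acy_two (hT : T.IsTree) (hact : ∀ (g : G) (u v : V), T.Adj u v → T.Adj (g • u) (g • v))
    (hr : LR G T r) (n : ℕ)
    (hint : ∀ w a b, T.Adj w a → T.Adj w b → ¬ r w a b →
      ∀ F : Finset G, (∀ g ∈ F, g ∈ Eg G w a ∧ g ∈ Eg G w b) → F.card ≤ n) : Acy G T r 2 n := by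
  intro v y hch F hF
  obtain ⟨h1, h2⟩ := hch
  obtain ⟨m00, m01, n01⟩ := h1 0 (by omega)
  obtain ⟨m11, m12, n12⟩ := h1 1 (by omega)
  have hy : y 0 ≠ y 1 := h2 0 (by omega)
  have n01 : v 0 ≠ v 1 := n01
  have n12 : v 1 ≠ v 2 := n12
  have m01 : Mem (y 0) (v 1) := m01
  have m12 : Mem (y 1) (v 2) := m12
  obtain ⟨s, hs⟩ := St_exists hT n01.symm
  obtain ⟨t, ht⟩ := St_exists hT n12
  have hs1 := f1 hT hr m01 m00 hs
  have ht1 := f1 hT hr m11 m12 ht
  refine hint (v 1) s t hs.1 ht.1 (fun h => hy ?_) F fun g hg => ?_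
  · rw [← hs1, ← ht1]
    exact cy_rel hs.1 ht.1 h
  · have hg0 := hF g hg 0 (by omega)
    have hg1 := hF g hg 1 (by omega)
    have hg2 := hF g hg 2 (by omega)
    have hgs : g • s = s := by
      have := St_smul hact g hs
      rw [hg0, hg1] at this
      exact St_unique hT.isAcyclic this hs
    have hgt : g • t = t := by
      have := St_smul hact g ht
      rw [hg1, hg2] at this
      exact St_unique hT.isAcyclic this ht
    exact ⟨⟨hg1, hgs⟩, ⟨hg1, hgt⟩⟩

/-! ### commuting edge groups -/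

/-- **the edge groups at each vertex commute** -/
theorem commuting (hC : ClosedE C) (hM : ∀ (G : Type) [Group G], derivedSeries G 2 = ⊥ → C G)
    (hA : AcylR C) (hT : T.IsTree)
    (hact : ∀ (g : G) (u v : V), T.Adj u v → T.Adj (g • u) (g • v))
    (hV : ∀ v : V, C ↥(MulAction.stabilizer G v))
    (hab : ∀ v a b, T.Adj v a → T.Adj v b → ∀ x ∈ Eg G v a, ∀ y ∈ Eg G v b, x * y = y * x) :
    C G := by
  obtain ⟨R, hR⟩ : ∃ R : V → Subgroup G, ∀ v, R v = ⨆ i : {a // T.Adj v a}, Eg G v i.1 :=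
    ⟨_, fun _ => rfl⟩
  have hle : ∀ v a, T.Adj v a → Eg G v a ≤ R v := by
    intro v a h
    rw [hR]
    exact le_iSup (fun i : {a // T.Adj v a} => Eg G v i.1) ⟨a, h⟩
  have hst : ∀ v, R v ≤ MulAction.stabilizer G v := by
    intro v
    rw [hR]
    exact iSup_le fun i => inf_le_left
  have hcomm : ∀ v, ∀ x ∈ R v, ∀ y ∈ R v, x * y = y * x := by
    intro v
    have h1 : R v ≤ Subgroup.centralizer (R v : Set G) := by
      have h2 : ∀ a, T.Adj v a → R v ≤ Subgroup.centralizer (Eg G v a : Set G) := by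
        intro a ha
        conv_lhs => rw [hR]
        refine iSup_le fun i x hx => ?_
        rw [Subgroup.mem_centralizer_iff]
        intro y hy
        exact hab v a i.1 ha i.2 y hy x hx
      conv_lhs => rw [hR]
      refine iSup_le fun i x hx => ?_
      rw [Subgroup.mem_centralizer_iff]
      intro y hy
      have h3 := h2 i.1 i.2 hy
      rw [Subgroup.mem_centralizer_iff] at h3
      exact (h3 x hx).symm
    intro x hx y hy
    have h3 := h1 hx
    rw [Subgroup.mem_centralizer_iff] at h3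
    exact (h3 y hy).symm
  refine famI hC hM hA hT hact hV (R := R) ⟨fun v x hx => hst v hx, fun g v => ?_,
    fun u v huv x hx hxu => hle u v huv ⟨hxu, hst v hx⟩⟩ (fun v => Or.inl (hcomm v)) ?_ ?_
  · have h1 : R v ≤ (R (g • v)).comap (MulAut.conj g).toMonoidHom := by
      conv_lhs => rw [hR]
      refine iSup_le fun i x hx => ?_
      exact hle (g • v) (g • i.1) (hact g _ _ i.2) (Eg_conj g hx)
    exact fun x hx => h1 hx
  · intro v u _ x _ hx
    have h1 : ⁅R v, R v⁆ = ⊥ := by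
      rw [Subgroup.commutator_eq_bot_iff_le_centralizer]
      intro x hx
      rw [Subgroup.mem_centralizer_iff]
      intro y hy
      exact hcomm v y hy x hx
    rwa [h1, Subgroup.mem_bot] at hx
  · intro u v huv
    exact ri_one (hle u v huv)

/-! ### centralizers -/

theorem com_bot {A : Subgroup G} (h : ∀ x ∈ A, ∀ y ∈ A, x * y = y * x) {x : G}
    (hx : x ∈ ⁅A, A⁆) : x = 1 := by
  have h1 : ⁅A, A⁆ = ⊥ := by
    rw [Subgroup.commutator_eq_bot_iff_le_centralizer]
    intro x hx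
    rw [Subgroup.mem_centralizer_iff]
    intro y hy
    exact h y hy x hx
  rwa [h1, Subgroup.mem_bot] at hx

/-- **abelian edge groups whose nontrivial elements have abelian centralizers in the vertex
groups** -/
theorem centralizers (hC : ClosedE C)
    (hM : ∀ (G : Type) [Group G], derivedSeries G 2 = ⊥ → C G)
    (hA : AcylR C) (hT : T.IsTree)
    (hact : ∀ (g : G) (u v : V), T.Adj u v → T.Adj (g • u) (g • v))
    (hV : ∀ v : V, C ↥(MulAction.stabilizer G v))
    (hab : ∀ v a, T.Adj v a → ∀ x ∈ Eg G v a, ∀ y ∈ Eg G v a, x * y = y * x)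
    (hct : ∀ v a, T.Adj v a → ∀ x ∈ Eg G v a, x ≠ 1 → ∀ y z : G, y • v = v → z • v = v →
      y * x = x * y → z * x = x * z → y * z = z * y) : C G := by
  classical
  obtain ⟨r, hr'⟩ : ∃ r : V → V → V → Prop, ∀ v a b, r v a b ↔ (a = b ∨
      ∃ x ∈ Eg G v a, ∃ y ∈ Eg G v b, x ≠ 1 ∧ y ≠ 1 ∧ x * y = y * x) := ⟨_, fun _ _ _ => Iff.rfl⟩
  have hr : LR G T r := by
    refine ⟨fun w a _ => (hr' w a a).2 (Or.inl rfl), fun w a b _ _ h => ?_,
      fun w a b c ha hb hc h h' => ?_, fun g w a b h => ?_⟩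
    · rw [hr'] at h ⊢
      rcases h with h | ⟨x, hx, y, hy, h1, h2, h3⟩
      · exact Or.inl h.symm
      · exact Or.inr ⟨y, hy, x, hx, h2, h1, h3.symm⟩
    · rw [hr'] at h h' ⊢
      rcases h with rfl | ⟨x, hx, y, hy, h1, h2, h3⟩
      · exact h'
      rcases h' with rfl | ⟨y', hy', z, hz, h4, h5, h6⟩
      · exact Or.inr ⟨x, hx, y, hy, h1, h2, h3⟩
      · right
        have h7 : x * y' = y' * x := hct w b hb y hy h2 x y' hx.1 hy'.1 h3
          (hab w b hb y' hy' y hy)
        exact ⟨x, hx, z, hz, h1, h5, hct w b hb y' hy' h4 x z hx.1 hz.1 h7 h6.symm⟩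
    · rw [hr'] at h ⊢
      rcases h with rfl | ⟨x, hx, y, hy, h1, h2, h3⟩
      · exact Or.inl rfl
      · right
        refine ⟨_, Eg_conj g hx, _, Eg_conj g hy, ?_, ?_, ?_⟩
        · intro h
          exact h1 (by simpa using (mul_inv_eq_one.1 h))
        · intro h
          exact h2 (by simpa using (mul_inv_eq_one.1 h))
        · have h4 : g * x * g⁻¹ * (g * y * g⁻¹) = g * (x * y) * g⁻¹ := by group
          have h5 : g * y * g⁻¹ * (g * x * g⁻¹) = g * (y * x) * g⁻¹ := by group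
          rw [h4, h5, h3]
  obtain ⟨Q, hQ⟩ : ∃ Q : V → V → Subgroup G, ∀ v a (x : G), x ∈ Q v a ↔
      (x = 1 ∨ ((∃ e ∈ Eg G v a, e ≠ 1) ∧ x • v = v ∧ ∀ e ∈ Eg G v a, x * e = e * x)) := by
    refine ⟨fun v a => if ∃ e ∈ Eg G v a, e ≠ 1 then
      MulAction.stabilizer G v ⊓ Subgroup.centralizer (Eg G v a : Set G) else ⊥,
      fun v a x => ?_⟩
    dsimp only
    split_ifs with h
    · constructor
      · rintro ⟨h1, h2⟩
        refine Or.inr ⟨h, h1, fun e he => ?_⟩
        have h2 : x ∈ Subgroup.centralizer (Eg G v a : Set G) := h2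
        rw [Subgroup.mem_centralizer_iff] at h2
        exact (h2 e he).symm
      · rintro (rfl | ⟨_, h1, h2⟩)
        · exact one_mem _
        · refine ⟨h1, ?_⟩
          show x ∈ Subgroup.centralizer (Eg G v a : Set G)
          rw [Subgroup.mem_centralizer_iff]
          exact fun e he => (h2 e he).symm
    · rw [Subgroup.mem_bot]
      constructor
      · exact fun h1 => Or.inl h1
      · rintro (h1 | ⟨h1, _⟩)
        · exact h1
        · exact absurd h1 h
  have hQab : ∀ v a, T.Adj v a → ∀ x ∈ Q v a, ∀ y ∈ Q v a, x * y = y * x := by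
    intro v a h x hx y hy
    rw [hQ] at hx hy
    rcases hx with rfl | ⟨⟨e, he, he1⟩, hxv, hx⟩
    · rw [one_mul, mul_one]
    rcases hy with rfl | ⟨_, hyv, hy⟩
    · rw [one_mul, mul_one]
    exact hct v a h e he he1 x y hxv hyv (hx e he) (hy e he)
  refine general hC hM hA hT hact hV hr 2 1 ?_ Q ?_ ?_
  · refine Acy_two hT hact hr 1 fun w a b ha hb hab' F hF => ?_
    rw [Finset.card_le_one]
    have h1 : ∀ g ∈ F, g = 1 := by
      intro g hg
      by_contra hg1
      obtain ⟨h2, h3⟩ := hF g hg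
      exact hab' ((hr' w a b).2 (Or.inr ⟨g, h2, g, h3, hg1, hg1, rfl⟩))
    intro a ha b hb
    rw [h1 a ha, h1 b hb]
  · intro g v a _ x hx
    rw [hQ] at hx ⊢
    rcases hx with rfl | ⟨⟨e, he, he1⟩, hxv, hx⟩
    · left
      group
    · right
      refine ⟨⟨_, Eg_conj g he, fun h => he1 (by simpa using (mul_inv_eq_one.1 h))⟩, ?_,
        fun f hf => ?_⟩
      · rw [mul_smul, inv_smul_smul, mul_smul, hxv]
      · have h1 := Eg_conj g⁻¹ hf
        rw [inv_smul_smul, inv_smul_smul, inv_inv] at h1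
        have h2 := hx _ h1
        have h3 : g * x * g⁻¹ * f = g * (x * (g⁻¹ * f * g)) * g⁻¹ := by group
        have h4 : f * (g * x * g⁻¹) = g * (g⁻¹ * f * g * x) * g⁻¹ := by group
        rw [h3, h4, h2]
  · intro v a hva
    by_cases hne : ∃ e ∈ Eg G v a, e ≠ 1
    swap
    · left
      refine ⟨fun b _ hb => ?_, fun b _ hb => ?_⟩
      · rw [hr'] at hb
        rcases hb with h | ⟨x, hx, _, _, h1, _⟩
        · exact h.symm
        · exact absurd ⟨x, hx, h1⟩ hne
      · rw [hr'] at hb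
        rcases hb with h | ⟨x, hx, _, _, h1, _⟩
        · exact h.symm
        · exact absurd ⟨x, Eg_swap hx, h1⟩ hne
    right
    obtain ⟨e0, he0, he01⟩ := hne
    have hne : ∃ e ∈ Eg G v a, e ≠ 1 := ⟨e0, he0, he01⟩
    have hEQ : ∀ v a, T.Adj v a → (∃ e ∈ Eg G v a, e ≠ 1) → Eg G v a ≤ Q v a := by
      intro v a h hne x hx
      exact (hQ v a x).2 (Or.inr ⟨hne, hx.1, fun e he => hab v a h x hx e he⟩)
    refine ⟨fun x hx => ?_, fun b hb h => ?_, fun x hx hxa => ?_, fun x hx _ => ?_,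
      ri_one (hEQ v a hva hne), Or.inl (hQab v a hva)⟩
    · rw [hQ] at hx
      rcases hx with rfl | ⟨⟨e, he, he1⟩, hxv, hx⟩
      · exact ⟨one_smul G v, by rw [one_smul]; exact hr.refl v a hva⟩
      · refine ⟨hxv, (hr' _ _ _).2 (Or.inr ⟨e, he, e, ?_, he1, he1, rfl⟩)⟩
        have h1 := Eg_conj x he
        rw [hxv, hx e he, mul_inv_cancel_right] at h1
        exact h1
    · rw [hr'] at h
      rcases h with rfl | ⟨x, hx, y, hy, hx1, hy1, hxy⟩
      · rfl
      have key : ∀ (a b : V), T.Adj v a → T.Adj v b → ∀ x ∈ Eg G v a, ∀ y ∈ Eg G v b, x ≠ 1 →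
          y ≠ 1 → x * y = y * x → ∀ z : G, z ∈ Q v a → z ∈ Q v b := by
        intro a b ha hb x hx y hy hx1 hy1 hxy z hz
        rw [hQ] at hz ⊢
        rcases hz with rfl | ⟨_, hzv, hz⟩
        · exact Or.inl rfl
        · refine Or.inr ⟨⟨y, hy, hy1⟩, hzv, fun w hw => ?_⟩
          have h1 : z * y = y * z := hct v a ha x hx hx1 z y hzv hy.1 (hz x hx) hxy.symm
          exact hct v b hb y hy hy1 z w hzv hw.1 h1 (hab v b hb w hw y hy)
      ext z
      exact ⟨key a b hva hb x hx y hy hx1 hy1 hxy z,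
        key b a hb hva y hy x hx hy1 hx1 hxy.symm z⟩
    · rw [hQ] at hx
      rcases hx with rfl | ⟨_, hxv, hx⟩
      · exact one_mem _
      · exact hEQ a v hva.symm ⟨e0, Eg_swap he0, he01⟩ ⟨hxa, hxv⟩
    · exact com_bot (hQab v a hva) hx

end Run7.h371.FK
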