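import Pool.Agent.Run7.h371.FK.Root

/-!
# Families of abelian normal subgroups of the vertex groups
-/

set_option autoImplicit false

namespace Run7.h371.FK

open SimpleGraph
open scoped commutatorElement
open Pool.Agent.N509.TK
open Pool.Agent.Y110.FJ
open Pool.Agent.N509.TX (AcylF C_edge C_stab of_fg of_fg_mem)
open Pool.Agent.R941.FJ (C_equiv C_le C_cyc mem_sup_normal)
open Run7.h371.FJ

variable {C : ∀ (G : Type) [Group G], Prop}
variable {G V : Type} {T : SimpleGraph V} [Group G] [MulAction G V] {R : V → Subgroup G}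

/-! ### restriction to subgroups -/

theorem Fm_sub (hR : Fm T R) (H : Subgroup G) : Fm T (fun v => (R v).subgroupOf H) where
  fix v r hr := hR.fix v r (Subgroup.mem_subgroupOf.1 hr)
  eqv g v r hr := Subgroup.mem_subgroupOf.2 (hR.eqv (g : G) v r (Subgroup.mem_subgroupOf.1 hr))
  cmp u v h r hr hru := Subgroup.mem_subgroupOf.2 (hR.cmp u v h r (Subgroup.mem_subgroupOf.1 hr) hru)

theorem hE_sub (hE : ∀ v u : V, T.Adj v u → ∀ x : G, x • u = u → x ∈ ⁅R v, R v⁆ → x = 1)
    (H : Subgroup G) : ∀ v u : V, T.Adj v u → ∀ x : H, x • u = u →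
      x ∈ ⁅(R v).subgroupOf H, (R v).subgroupOf H⁆ → x = 1 := by
  intro v u hvu x hxu hx
  refine Subtype.ext (hE v u hvu x hxu ?_)
  have h1 : (x : G) ∈ (⁅(R v).subgroupOf H, (R v).subgroupOf H⁆).map H.subtype := ⟨x, hx, rfl⟩
  rw [Subgroup.map_commutator] at h1
  have h2 : ((R v).subgroupOf H).map H.subtype ≤ R v := by
    rintro _ ⟨y, hy, rfl⟩
    exact Subgroup.mem_subgroupOf.1 hy
  exact Subgroup.commutator_mono h2 h2 h1

theorem Bd_sub {m : ℕ} (hm : ∀ u v, T.Adj u v → Bd m (Eg G u v) (R u)) (H : Subgroup G) :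
    ∀ u v, T.Adj u v → Bd m (Eg H u v) ((R u).subgroupOf H) := by
  classical
  intro u v huv F hF hF'
  have h1 := hm u v huv (F.image Subtype.val) (by
    intro g hg
    obtain ⟨g', hg', rfl⟩ := Finset.mem_image.1 hg
    exact hF g' hg') (by
    intro g hg g' hg' hgg
    obtain ⟨a, ha, rfl⟩ := Finset.mem_image.1 hg
    obtain ⟨b, hb, rfl⟩ := Finset.mem_image.1 hg'
    exact congrArg Subtype.val (hF' a ha b hb (Subgroup.mem_subgroupOf.2 hgg)))
  rwa [Finset.card_image_of_injective _ Subtype.val_injective] at h1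

theorem Qk_sub {v : V} {M : Subgroup G} (h : Qk C v M) (H : Subgroup G) :
    Qk C v (M.subgroupOf H) := by
  obtain ⟨P, _, f, hP, hf⟩ := h
  let j : MulAction.stabilizer H v →* MulAction.stabilizer G v :=
    ((H.subtype).comp (Subgroup.subtype (MulAction.stabilizer H v))).codRestrict
      (MulAction.stabilizer G v) (by
        rintro ⟨y, hy⟩
        exact hy)
  refine ⟨P, _, f.comp j, hP, fun x => ?_⟩
  rw [Subgroup.mem_subgroupOf]
  exact hf (j x)

/-- the group generated by a family of subgroups of `H` -/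
theorem sup_sub {ι : Type} (R : ι → Subgroup G) (H : Subgroup G) (h : ∀ v, R v ≤ H) {x : G}
    (hx : x ∈ ⨆ v, R v) : ∃ x' ∈ ⨆ v, (R v).subgroupOf H, (x' : G) = x := by
  have h1 : (⨆ v, R v) ≤ (⨆ v, (R v).subgroupOf H).map H.subtype := by
    rw [Subgroup.map_iSup]
    refine iSup_le fun v => le_trans ?_ (le_iSup _ v)
    intro y hy
    exact ⟨⟨y, h v hy⟩, Subgroup.mem_subgroupOf.2 hy, rfl⟩
  obtain ⟨x', h2, h3⟩ := h1 hx
  exact ⟨x', h2, h3⟩

/-- finite sets of generators -/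
theorem fin_gen {ι : Type} (R : ι → Subgroup G) {x : G} (hx : x ∈ ⨆ v, R v) :
    ∃ Φ : Finset G, (∀ y ∈ Φ, ∃ v, y ∈ R v) ∧ x ∈ Subgroup.closure (Φ : Set G) := by
  classical
  induction hx using Subgroup.iSup_induction' with
  | hp v a ha =>
    exact ⟨{a}, fun y hy => ⟨v, by rwa [Finset.mem_singleton.1 hy]⟩,
      Subgroup.subset_closure (by simp)⟩
  | h1 => exact ⟨∅, fun y hy => absurd hy (by simp), one_mem _⟩
  | hmul a b _ _ iha ihb =>
    obtain ⟨Φ, h1, h2⟩ := iha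
    obtain ⟨Ψ, h3, h4⟩ := ihb
    refine ⟨Φ ∪ Ψ, fun y hy => ?_, ?_⟩
    · rcases Finset.mem_union.1 hy with hy | hy
      · exact h1 y hy
      · exact h3 y hy
    · refine mul_mem (Subgroup.closure_mono ?_ h2) (Subgroup.closure_mono ?_ h4)
      · exact_mod_cast Finset.subset_union_left
      · exact_mod_cast Finset.subset_union_right

/-! ### groups generated by the family and the stabilizer of a vertex -/

theorem root_fg (hC : ClosedE C) (hM : ∀ (G : Type) [Group G], derivedSeries G 2 = ⊥ → C G)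
    (hA : AcylR C) (hfg : Group.FG G) (hT : T.IsTree)
    (hact : ∀ (g : G) (u v : V), T.Adj u v → T.Adj (g • u) (g • v))
    (hV : ∀ v : V, C ↥(MulAction.stabilizer G v)) (hR : Fm T R) (s : V)
    (hs : ∀ g : G, ∃ n ∈ ⨆ v, R v, g • s = n • s)
    (hab : ∀ x ∈ R s, ∀ y ∈ R s, x * y = y * x)
    (hE : ∀ v u : V, T.Adj v u → ∀ x : G, x • u = u → x ∈ ⁅R v, R v⁆ → x = 1)
    (m : ℕ) (hm : ∀ u v, T.Adj u v → Bd m (Eg G u v) (R u)) : C G := by
  obtain ⟨S, hS⟩ := Tv.exists (R := R) hT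
  have hq := hR.tq hT hact hS
  obtain ⟨h, hh, t, ht, rfl⟩ := hq.cover s
  have hNn : (⨆ v, R v).Normal := hR.normal
  refine root_fg' hC hM hA hfg hT hact hV hR hq t ht ?_ ?_ hE m hm
  · intro g
    obtain ⟨n, hn, h1⟩ := hs (h * g * h⁻¹)
    refine ⟨h⁻¹ * n * h⁻¹⁻¹, hNn.conj_mem n hn h⁻¹, ?_⟩
    rw [mul_smul, inv_smul_smul, mul_smul] at h1
    rw [inv_inv, mul_smul, mul_smul, ← h1, inv_smul_smul]
  · intro x hx y hy
    have h1 := hab _ (hR.eqv h t x hx) _ (hR.eqv h t y hy)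
    have h2 : h * (x * y) * h⁻¹ = h * (y * x) * h⁻¹ := by
      have h3 : h * (x * y) * h⁻¹ = h * x * h⁻¹ * (h * y * h⁻¹) := by group
      have h4 : h * (y * x) * h⁻¹ = h * y * h⁻¹ * (h * x * h⁻¹) := by group
      rw [h3, h4, h1]
    exact mul_left_cancel (mul_right_cancel h2)

/-- **groups generated by the family and the stabilizer of a vertex** -/
theorem root (hC : ClosedE C) (hM : ∀ (G : Type) [Group G], derivedSeries G 2 = ⊥ → C G)
    (hA : AcylR C) (hT : T.IsTree)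
    (hact : ∀ (g : G) (u v : V), T.Adj u v → T.Adj (g • u) (g • v))
    (hV : ∀ v : V, C ↥(MulAction.stabilizer G v)) (hR : Fm T R) (s : V)
    (hs : ∀ g : G, ∃ n ∈ ⨆ v, R v, g • s = n • s)
    (hab : ∀ x ∈ R s, ∀ y ∈ R s, x * y = y * x)
    (hE : ∀ v u : V, T.Adj v u → ∀ x : G, x • u = u → x ∈ ⁅R v, R v⁆ → x = 1)
    (m : ℕ) (hm : ∀ u v, T.Adj u v → Bd m (Eg G u v) (R u)) : C G := by
  classical
  refine of_fg hC fun H hH => ?_
  obtain ⟨Φ, hΦ⟩ := (Group.fg_iff_subgroup_fg H).1 hH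
  choose n hn hns using hs
  choose Ψ hΨR hΨ using fun g => fin_gen R (hn g)
  obtain ⟨Θ, hΘ⟩ : ∃ Θ : Finset G, Θ = Φ ∪ Φ.biUnion Ψ := ⟨_, rfl⟩
  obtain ⟨K, hK⟩ : ∃ K : Subgroup G, K = Subgroup.closure (Θ : Set G) := ⟨_, rfl⟩
  have hHK : H ≤ K := by
    rw [← hΦ, hK, hΘ]
    refine Subgroup.closure_mono ?_
    exact_mod_cast Finset.subset_union_left
  refine C_le hC.base hHK ?_
  have hKfg : Group.FG K := (Group.fg_iff_subgroup_fg K).2 ⟨Θ, hK.symm⟩
  have hRK := Fm_sub hR K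
  have hNn : (⨆ v, (R v).subgroupOf K).Normal := hRK.normal
  obtain ⟨N', hN'⟩ : ∃ N' : Subgroup K, N' = ⨆ v, (R v).subgroupOf K := ⟨_, rfl⟩
  have hN'n : N'.Normal := hN' ▸ hNn
  have hΨK : ∀ g ∈ Φ, ∀ y ∈ Ψ g, y ∈ N'.map K.subtype := by
    intro g hg y hy
    obtain ⟨v, hv⟩ := hΨR g y hy
    have hyK : y ∈ K := by
      rw [hK, hΘ]
      refine Subgroup.subset_closure ?_
      rw [Finset.coe_union]
      right
      exact Finset.mem_coe.2 (Finset.mem_biUnion.2 ⟨g, hg, hy⟩)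
    refine ⟨⟨y, hyK⟩, ?_, rfl⟩
    rw [hN']
    exact le_iSup (fun v => (R v).subgroupOf K) v (Subgroup.mem_subgroupOf.2 hv)
  have hKle : K ≤ (N' ⊔ MulAction.stabilizer K s).map K.subtype := by
    conv_lhs => rw [hK]
    rw [Subgroup.closure_le]
    intro g hg
    rw [hΘ, Finset.coe_union] at hg
    rcases hg with hg | hg
    · have hg : g ∈ Φ := hg
      have h1 : n g ∈ N'.map K.subtype := by
        have h2 : Subgroup.closure (Ψ g : Set G) ≤ N'.map K.subtype := by
          rw [Subgroup.closure_le]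
          intro y hy
          exact hΨK g hg y hy
        exact h2 (hΨ g)
      obtain ⟨a, ha, ha'⟩ := h1
      have ha' : (a : G) = n g := ha'
      have hgK : g ∈ K := by
        rw [hK, hΘ]
        refine Subgroup.subset_closure ?_
        rw [Finset.coe_union]
        exact Or.inl hg
      refine ⟨a * (a⁻¹ * ⟨g, hgK⟩), mul_mem (Subgroup.mem_sup_left ha)
        (Subgroup.mem_sup_right ?_), ?_⟩
      · show ((a : G)⁻¹ * g) • s = s
        rw [mul_smul, hns g, ha', inv_smul_smul]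
      · show (a : G) * ((a : G)⁻¹ * g) = g
        rw [mul_inv_cancel_left]
    · obtain ⟨g', hg', h1⟩ := Finset.mem_biUnion.1 (Finset.mem_coe.1 hg)
      exact Subgroup.map_mono le_sup_left (hΨK g' hg' g h1)
  refine root_fg (G := K) (V := V) (T := T) hC hM hA hKfg hT (fun g u v h => hact g u v h)
    (fun v => C_stab hC K v (hV v)) hRK s ?_ ?_ (hE_sub hE K) m (Bd_sub hm K)
  · intro g
    obtain ⟨g', hg', h1⟩ := hKle g.2
    have h2 : g' = g := Subtype.ext h1
    rw [h2] at hg'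
    obtain ⟨a, ha, b, hb, h3⟩ := mem_sup_normal.1 hg'
    refine ⟨a, by rwa [hN'] at ha, ?_⟩
    have hb : b • s = s := hb
    rw [← h3, mul_smul, hb]
  · intro x hx y hy
    exact Subtype.ext (hab x (Subgroup.mem_subgroupOf.1 hx) y (Subgroup.mem_subgroupOf.1 hy))

/-! ### the general theorem -/

theorem fam_fg (hC : ClosedE C) (hM : ∀ (G : Type) [Group G], derivedSeries G 2 = ⊥ → C G)
    (hA : AcylR C) (hfg : Group.FG G) (hT : T.IsTree)
    (hact : ∀ (g : G) (u v : V), T.Adj u v → T.Adj (g • u) (g • v))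
    (hV : ∀ v : V, C ↥(MulAction.stabilizer G v)) (hR : Fm T R)
    (hab : ∀ v, (∀ x ∈ R v, ∀ y ∈ R v, x * y = y * x) ∨ Qk C v (R v))
    (hE : ∀ v u : V, T.Adj v u → ∀ x : G, x • u = u → x ∈ ⁅R v, R v⁆ → x = 1)
    (m : ℕ) (hm : ∀ u v, T.Adj u v → Bd m (Eg G u v) (R u)) : C G := by
  classical
  obtain ⟨S, hS⟩ := Tv.exists (R := R) hT
  have hq := hR.tq hT hact hS
  have hcyc := cycC hC hM hT hact hR hE hV
  obtain ⟨N, hN⟩ : ∃ N : Subgroup G, N = ⨆ v, R v := ⟨_, rfl⟩
  have hNn : N.Normal := hN ▸ hR.normal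
  have hle : ∀ v, R v ≤ N := fun v => hN ▸ le_iSup R v
  have hst : ∀ {x : G}, x ∈ N → ∀ {v : V}, x • v = v → x ∈ R v := fun {x} hx {v} h =>
    hR.stab hT hact (hN ▸ hx) h
  rw [← hN] at hq hcyc
  let _ := ga hq
  refine finedgeR (G := G) (Q := G ⧸ N) (V := S) (T := T.induce S) hA hC (QuotientGroup.mk' N)
    (QuotientGroup.mk'_surjective N)
    (Group.fg_of_surjective (f := QuotientGroup.mk' N) (QuotientGroup.mk'_surjective N))
    (hq.isTree hT) ?_ m ?_ ?_ ?_ ?_
  · intro g s t hst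
    exact sm_adj hact hq g s t hst
  · intro g hg s
    exact sm_eq hq ((QuotientGroup.eq_one_iff g).1 hg) rfl
  · intro s t hadj F hF
    refine (hm s t hadj).img (hle s) F fun q hq' => ?_
    obtain ⟨g, rfl, hs, ht⟩ := hF q hq'
    obtain ⟨h, hh, h2, h3⟩ := sm_edge hact hq hadj hs ht
    refine ⟨h⁻¹ * g, ⟨h2, h3⟩, ?_⟩
    refine QuotientGroup.eq.2 ?_
    have h4 : (h⁻¹ * g)⁻¹ * g = g⁻¹ * h * g⁻¹⁻¹ := by group
    rw [h4]
    exact hNn.conj_mem h hh g⁻¹
  · intro s
    obtain ⟨Γ, hΓ⟩ : ∃ Γ : Subgroup G, Γ = MulAction.stabilizer G s := ⟨_, rfl⟩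
    rw [← hΓ]
    have hmΓ : ∀ g : G, g ∈ Γ ↔ sm hq g s = s := by
      intro g
      rw [hΓ]
      exact Iff.rfl
    have hNΓ : N ≤ Γ := fun g hg => (hmΓ g).2 (sm_eq hq hg rfl)
    have hsΓ : MulAction.stabilizer G (s : V) ≤ Γ := fun g hg =>
      (hmΓ g).2 (sm_eq hq (h := 1) (one_mem _) (by rw [one_smul]; exact hg))
    rcases hab s with hab | hQ
    · refine root (G := Γ) (V := V) (T := T) hC hM hA hT (fun g u v h => hact g u v h)
        (fun v => C_stab hC Γ v (hV v)) (Fm_sub hR Γ) (s : V) ?_ ?_ (hE_sub hE Γ) m (Bd_sub hm Γ)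
      · intro g
        obtain ⟨h, hh, h1⟩ := sm_vertex hq ((hmΓ g).1 g.2)
        rw [hN] at hh
        obtain ⟨h', hh', h2⟩ := sup_sub R Γ (fun v => (hle v).trans hNΓ) hh
        refine ⟨h', hh', ?_⟩
        show (g : G) • (s : V) = (h' : G) • (s : V)
        rw [h2, ← inv_smul_eq_iff, ← mul_smul, h1]
      · intro x hx y hy
        exact Subtype.ext (hab x (Subgroup.mem_subgroupOf.1 hx) y (Subgroup.mem_subgroupOf.1 hy))
    · obtain ⟨P, _, f, hP, hf⟩ := hQ
      obtain ⟨D, hD⟩ : ∃ D : Subgroup Γ, D = N.subgroupOf Γ := ⟨_, rfl⟩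
      have hmD : ∀ x : Γ, x ∈ D ↔ (x : G) ∈ N := fun x => by rw [hD, Subgroup.mem_subgroupOf]
      have hDn : D.Normal := by
        refine ⟨fun x hx g => ?_⟩
        rw [hmD] at hx ⊢
        exact hNn.conj_mem _ hx g
      let π : MulAction.stabilizer G (s : V) →* Γ ⧸ D :=
        (QuotientGroup.mk' D).comp (Subgroup.inclusion hsΓ)
      have hπ : Function.Surjective π := by
        intro q
        obtain ⟨⟨g, hg⟩, rfl⟩ := QuotientGroup.mk_surjective q
        obtain ⟨h, hh, h1⟩ := sm_vertex hq ((hmΓ g).1 hg)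
        refine ⟨⟨h⁻¹ * g, h1⟩, ?_⟩
        show (QuotientGroup.mk (⟨h⁻¹ * g, hsΓ h1⟩ : Γ) : Γ ⧸ D) = QuotientGroup.mk (⟨g, hg⟩ : Γ)
        refine QuotientGroup.eq.2 ((hmD _).2 ?_)
        show (h⁻¹ * g)⁻¹ * g ∈ N
        have h4 : (h⁻¹ * g)⁻¹ * g = g⁻¹ * h * g⁻¹⁻¹ := by group
        rw [h4]
        exact hNn.conj_mem h hh g⁻¹
      have hker : π.ker = f.ker := by
        ext x
        rw [MonoidHom.mem_ker, MonoidHom.mem_ker, hf]
        constructor
        · intro h
          exact hst ((hmD _).1 ((QuotientGroup.eq_one_iff _).1 h)) x.2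
        · intro h
          exact (QuotientGroup.eq_one_iff _).2 ((hmD _).2 (hle _ h))
      have hQD : C (Γ ⧸ D) := by
        refine C_equiv hC.base (QuotientGroup.quotientKerEquivOfSurjective π hπ).symm ?_
        refine C_equiv hC.base (QuotientGroup.quotientMulEquivOfEq hker) ?_
        exact hC.base.of_injective _ _ (QuotientGroup.kerLift f) (QuotientGroup.kerLift_injective f)
          hP
      have key : ∀ g : Γ, C ↥(D ⊔ Subgroup.zpowers g) := by
        intro g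
        refine hC.base.of_injective _ _ ((Γ.subtype.comp (Subgroup.subtype
          (D ⊔ Subgroup.zpowers g))).codRestrict (N ⊔ Subgroup.zpowers (g : G)) ?_) ?_ (hcyc g)
        · rintro ⟨z, hz⟩
          have h1 : D ⊔ Subgroup.zpowers g ≤
              (N ⊔ Subgroup.zpowers (g : G)).comap Γ.subtype := by
            refine sup_le ?_ ?_
            · intro z hz
              exact Subgroup.mem_sup_left ((hmD z).1 hz)
            · rw [Subgroup.zpowers_le]
              exact Subgroup.mem_sup_right (Subgroup.mem_zpowers _)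
          exact h1 hz
        · intro a b hab
          have h1 := congrArg Subtype.val hab
          exact Subtype.ext (Subtype.ext h1)
      exact Pool.Agent.Y529.FJ.t_ext C hC _ D (C_le hC.base le_sup_left (key 1)) hQD
        fun g _ => key g
  · intro q
    obtain ⟨g, rfl⟩ := QuotientGroup.mk'_surjective N q
    have h2 : (Subgroup.zpowers (QuotientGroup.mk' N g)).comap (QuotientGroup.mk' N) =
        N ⊔ Subgroup.zpowers g := by
      rw [← MonoidHom.map_zpowers, Subgroup.comap_map_eq, QuotientGroup.ker_mk', sup_comm]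
    rw [h2]
    exact hcyc g

/-- **families of subgroups of bounded index in the edge groups** -/
theorem fam (hC : ClosedE C) (hM : ∀ (G : Type) [Group G], derivedSeries G 2 = ⊥ → C G)
    (hA : AcylR C) (hT : T.IsTree)
    (hact : ∀ (g : G) (u v : V), T.Adj u v → T.Adj (g • u) (g • v))
    (hV : ∀ v : V, C ↥(MulAction.stabilizer G v)) (hR : Fm T R)
    (hab : ∀ v, (∀ x ∈ R v, ∀ y ∈ R v, x * y = y * x) ∨ Qk C v (R v))
    (hE : ∀ v u : V, T.Adj v u → ∀ x : G, x • u = u → x ∈ ⁅R v, R v⁆ → x = 1)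
    (m : ℕ) (hm : ∀ u v, T.Adj u v → Bd m (Eg G u v) (R u)) : C G := by
  refine of_fg hC fun H hH => ?_
  refine fam_fg (G := H) (V := V) (T := T) hC hM hA hH hT (fun g u v h => hact g u v h)
    (fun v => C_stab hC H v (hV v)) (Fm_sub hR H) ?_ (hE_sub hE H) m (Bd_sub hm H)
  intro v
  rcases hab v with h | h
  · left
    intro x hx y hy
    exact Subtype.ext (h x (Subgroup.mem_subgroupOf.1 hx) y (Subgroup.mem_subgroupOf.1 hy))
  · exact Or.inr (Qk_sub h H)

end Run7.h371.FK
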