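import Pool.Agent.Run7.h371.FK.Fa

/-!
# Finite index instead of bounded index
-/

set_option autoImplicit false

namespace Run7.h371.FK

open SimpleGraph
open scoped commutatorElement
open Pool.Agent.N509.TK
open Pool.Agent.Y110.FJ
open Pool.Agent.N509.TX (AcylF C_edge C_stab of_fg of_fg_mem STree fg_subtree)
open Pool.Agent.R941.FJ (C_equiv C_le C_cyc mem_sup_normal)
open Run7.h371.FJ

variable {C : ∀ (G : Type) [Group G], Prop}
variable {G V : Type} {T : SimpleGraph V} [Group G] [MulAction G V] {R : V → Subgroup G}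

theorem Bd_of_relIndex {A B : Subgroup G} (h : B.relIndex A ≠ 0) : Bd (B.relIndex A) A B := by
  classical
  intro F hF hF'
  have hfin : Finite (A ⧸ B.subgroupOf A) := by
    have h1 : (B.subgroupOf A).FiniteIndex := ⟨h⟩
    exact Subgroup.finite_quotient_of_finiteIndex
  have h1 : B.relIndex A = Nat.card (A ⧸ B.subgroupOf A) := rfl
  rw [h1]
  let φ : F → A ⧸ B.subgroupOf A := fun g => QuotientGroup.mk ⟨g, hF g g.2⟩
  have hφ : Function.Injective φ := by
    intro g g' hgg
    have h2 := QuotientGroup.eq.1 hgg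
    rw [Subgroup.mem_subgroupOf] at h2
    exact Subtype.ext (hF' g g.2 g' g'.2 h2)
  have h2 := Nat.card_le_card_of_injective φ hφ
  simpa using h2

theorem Bd.mono {A B : Subgroup G} {m n : ℕ} (h : Bd m A B) (hmn : m ≤ n) : Bd n A B :=
  fun F hF hF' => (h F hF hF').trans hmn

/-- **families of subgroups of finite index in the edge groups** -/
theorem famI (hC : ClosedE C) (hM : ∀ (G : Type) [Group G], derivedSeries G 2 = ⊥ → C G)
    (hA : AcylR C) (hT : T.IsTree)
    (hact : ∀ (g : G) (u v : V), T.Adj u v → T.Adj (g • u) (g • v))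
    (hV : ∀ v : V, C ↥(MulAction.stabilizer G v)) (hR : Fm T R)
    (hab : ∀ v, (∀ x ∈ R v, ∀ y ∈ R v, x * y = y * x) ∨ Qk C v (R v))
    (hE : ∀ v u : V, T.Adj v u → ∀ x : G, x • u = u → x ∈ ⁅R v, R v⁆ → x = 1)
    (hm : ∀ u v, T.Adj u v → (R u).relIndex (Eg G u v) ≠ 0) : C G := by
  classical
  refine of_fg hC fun H hH => ?_
  obtain ⟨o⟩ := hT.connected.nonempty
  obtain ⟨W, _, T', ι, Φ, hst, -, hΦT, hΦ⟩ := fg_subtree (G := H) (V := V) (T := T) hT
    (fun g u v h => hact g u v h) hH o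
  have hVH : ∀ w : W, C ↥(MulAction.stabilizer H w) := by
    intro w
    rw [hst.stab]
    exact C_stab hC H _ (hV _)
  obtain ⟨m, hmd⟩ : ∃ m : ℕ, m = Φ.sum fun e =>
      (R e.1).relIndex (Eg G e.1 e.2) + (R e.2).relIndex (Eg G e.2 e.1) := ⟨_, rfl⟩
  have hbd : ∀ e ∈ Φ, Bd m (Eg G e.1 e.2) (R e.1) ∧ Bd m (Eg G e.2 e.1) (R e.2) := by
    intro e he
    have h0 := hΦT e he
    have h1 : (R e.1).relIndex (Eg G e.1 e.2) + (R e.2).relIndex (Eg G e.2 e.1) ≤ m := by
      rw [hmd]
      exact Finset.single_le_sum (f := fun e : V × V =>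
        (R e.1).relIndex (Eg G e.1 e.2) + (R e.2).relIndex (Eg G e.2 e.1))
        (fun i _ => Nat.zero_le _) he
    exact ⟨(Bd_of_relIndex (hm _ _ h0)).mono (by omega),
      (Bd_of_relIndex (hm _ _ h0.symm)).mono (by omega)⟩
  have hmemR : ∀ (w : W) (x : H), x ∈ ((R (ι w)).subgroupOf H) ↔ (x : G) ∈ R (ι w) :=
    fun w x => Subgroup.mem_subgroupOf
  refine fam_fg (G := H) (V := W) (T := T') (R := fun w => (R (ι w)).subgroupOf H) hC hM hA hH
    hst.tree hst.act hVH ⟨?_, ?_, ?_⟩ ?_ ?_ m ?_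
  · intro w x hx
    exact hst.fix.2 (hR.fix _ _ ((hmemR w x).1 hx))
  · intro g w x hx
    rw [hmemR, hst.eqv]
    exact hR.eqv (g : G) _ _ ((hmemR w x).1 hx)
  · intro u w huw x hx hxu
    rw [hmemR]
    exact hR.cmp _ _ (hst.adj _ _ huw) _ ((hmemR w x).1 hx) (hst.fix.1 hxu)
  · intro w
    rcases hab (ι w) with h | h
    · left
      intro x hx y hy
      exact Subtype.ext (h x ((hmemR w x).1 hx) y ((hmemR w y).1 hy))
    · right
      obtain ⟨P, _, f, hP, hf⟩ := h
      let j : MulAction.stabilizer H w →* MulAction.stabilizer G (ι w) :=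
        ((H.subtype).comp (Subgroup.subtype (MulAction.stabilizer H w))).codRestrict
          (MulAction.stabilizer G (ι w)) (by
            rintro ⟨y, hy⟩
            exact hst.fix.1 hy)
      refine ⟨P, _, f.comp j, hP, fun x => ?_⟩
      rw [hmemR]
      exact hf (j x)
  · intro w z hwz x hxz hx
    refine Subtype.ext (hE (ι w) (ι z) (hst.adj _ _ hwz) x (hst.fix.1 hxz) ?_)
    have h1 : (x : G) ∈ (⁅(R (ι w)).subgroupOf H, (R (ι w)).subgroupOf H⁆).map H.subtype :=
      ⟨x, hx, rfl⟩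
    rw [Subgroup.map_commutator] at h1
    have h2 : ((R (ι w)).subgroupOf H).map H.subtype ≤ R (ι w) := by
      rintro _ ⟨y, hy, rfl⟩
      exact (hmemR w y).1 hy
    exact Subgroup.commutator_mono h2 h2 h1
  · intro w z hwz F hF hF'
    obtain ⟨h, hh⟩ := hΦ w z hwz
    have key : Bd m (Eg G (h • ι w) (h • ι z)) (R (h • ι w)) := by
      rcases hh with hh | hh
      · exact (hbd _ hh).1
      · exact (hbd _ hh).2
    let c : H → G := fun x => (h : G) * x * (h : G)⁻¹
    have hc : Function.Injective c := by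
      intro a b hab
      exact Subtype.ext (mul_left_cancel (mul_right_cancel hab))
    have h1 := key (F.image c) (by
      intro g hg
      obtain ⟨g', hg', rfl⟩ := Finset.mem_image.1 hg
      obtain ⟨h2, h3⟩ := hF g' hg'
      have h2 : (g' : G) • ι w = ι w := hst.fix.1 h2
      have h3 : (g' : G) • ι z = ι z := hst.fix.1 h3
      refine ⟨?_, ?_⟩
      · show ((h : G) * g' * (h : G)⁻¹) • (h : G) • ι w = (h : G) • ι w
        rw [mul_smul, inv_smul_smul, mul_smul, h2]
      · show ((h : G) * g' * (h : G)⁻¹) • (h : G) • ι z = (h : G) • ι z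
        rw [mul_smul, inv_smul_smul, mul_smul, h3]) (by
      intro g hg g' hg' hgg
      obtain ⟨a, ha, rfl⟩ := Finset.mem_image.1 hg
      obtain ⟨b, hb, rfl⟩ := Finset.mem_image.1 hg'
      have h2 : (c a)⁻¹ * c b = (h : G) * ((a : G)⁻¹ * b) * (h : G)⁻¹ := by
        show ((h : G) * a * (h : G)⁻¹)⁻¹ * ((h : G) * b * (h : G)⁻¹) = _
        group
      rw [h2] at hgg
      have h3 := hR.eqv (h : G)⁻¹ _ _ hgg
      have h4 : (h : G)⁻¹ • (h • ι w) = ι w := inv_smul_smul (h : G) (ι w)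
      rw [h4] at h3
      have h5 : (h : G)⁻¹ * ((h : G) * ((a : G)⁻¹ * b) * (h : G)⁻¹) * (h : G)⁻¹⁻¹ =
          (a : G)⁻¹ * b := by group
      rw [h5] at h3
      rw [hF' a ha b hb ((hmemR w _).2 h3)])
    rwa [Finset.card_image_of_injective _ hc] at h1

end Run7.h371.FK
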