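import Pool.Agent.Run7.h371.FK.Ch
import Pool.Agent.Run7.h371.FK.Fi
import Pool.Agent.Run7.h371.FJ.Al2

/-!
# The general theorem
-/

set_option autoImplicit false

namespace Run7.h371.FK

open SimpleGraph
open Pool.Agent.N509.TK
open Pool.Agent.Y110.FJ
open Pool.Agent.N509.TX (AcylF C_edge C_stab of_fg of_fg_mem STree cyl_subtree)
open Pool.Agent.R941.FJ (C_equiv C_le C_cyc mem_sup_normal)
open Run7.h371.FJ

variable {C : ∀ (G : Type) [Group G], Prop}
variable {G V : Type} {T : SimpleGraph V} [Group G] [MulAction G V] {r : V → V → V → Prop}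

/-- `a` is related only to itself at `v` -/
def Isd (T : SimpleGraph V) (r : V → V → V → Prop) (v a : V) : Prop :=
  ∀ b, T.Adj v b → r v a b → b = a

/-- modulo `M`, the elements of the stabilizer of `v` which preserve the class of `a` form a group in
`C` -/
def Qc (C : ∀ (G : Type) [Group G], Prop) {G V : Type} [Group G] [MulAction G V]
    (r : V → V → V → Prop) (v a : V) (M : Subgroup G) : Prop :=
  ∃ (L : Subgroup G) (P : Type) (_ : Group P) (f : L →* P), C P ∧
    (∀ x : G, x • v = v → r v a (x • a) → x ∈ L) ∧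
    ∀ x : L, (x : G) • v = v → r v a ((x : G) • a) → (f x = 1 ↔ (x : G) ∈ M)

/-- the conditions on the family `Q` at the edge from `v` to `a` -/
structure Fe (C : ∀ (G : Type) [Group G], Prop) {G V : Type} [Group G] [MulAction G V]
    (T : SimpleGraph V) (r : V → V → V → Prop) (Q : V → V → Subgroup G) (v a : V) : Prop where
  fix : ∀ x ∈ Q v a, x • v = v ∧ r v a (x • a)
  cls : ∀ b, T.Adj v b → r v a b → Q v a = Q v b
  cmp : ∀ x ∈ Q v a, x • a = a → x ∈ Q a v
  com : ∀ x ∈ ⁅Q v a, Q v a⁆, x • a = a → x = 1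
  ind : (Q v a).relIndex (Eg G v a) ≠ 0
  ab : (∀ x ∈ Q v a, ∀ y ∈ Q v a, x * y = y * x) ∨ Qc C r v a (Q v a)

theorem iso_gen (hr : LR G T r) {v a : V} (h1 : Isd T r v a) (h2 : Isd T r a v) {p q : Dt T}
    (h : Relation.EqvGen (lk T r) p q) :
    (p.1 = (v, a) ∨ p.1 = (a, v)) ↔ (q.1 = (v, a) ∨ q.1 = (a, v)) := by
  have step : ∀ w b c : V, T.Adj w b → T.Adj w c → r w b c →
      (((w, b) : V × V) = (v, a) ∨ ((w, b) : V × V) = (a, v)) →
      (((w, c) : V × V) = (v, a) ∨ ((w, c) : V × V) = (a, v)) := by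
    intro w b c hb hc hbc h
    rcases h with h | h
    · obtain ⟨h3, h4⟩ := Prod.mk.inj h
      subst h3
      subst h4
      left
      rw [h1 c hc hbc]
    · obtain ⟨h3, h4⟩ := Prod.mk.inj h
      subst h3
      subst h4
      right
      rw [h2 c hc hbc]
  induction h with
  | rel x y h =>
    obtain ⟨⟨w, b⟩, hwb⟩ := x
    obtain ⟨⟨w', c⟩, hwc⟩ := y
    have hwb : T.Adj w b := hwb
    have hwc : T.Adj w' c := hwc
    rcases h with h | ⟨h3, h4⟩
    · have h5 : ((w', c) : V × V) = (b, w) := h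
      obtain ⟨h6, h7⟩ := Prod.mk.inj h5
      subst h6
      subst h7
      show (((c, w') : V × V) = (v, a) ∨ ((c, w') : V × V) = (a, v)) ↔
        (((w', c) : V × V) = (v, a) ∨ ((w', c) : V × V) = (a, v))
      constructor
      · rintro (h | h)
        · obtain ⟨h8, h9⟩ := Prod.mk.inj h
          exact Or.inr (by rw [h8, h9])
        · obtain ⟨h8, h9⟩ := Prod.mk.inj h
          exact Or.inl (by rw [h8, h9])
      · rintro (h | h)
        · obtain ⟨h8, h9⟩ := Prod.mk.inj h
          exact Or.inr (by rw [h8, h9])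
        · obtain ⟨h8, h9⟩ := Prod.mk.inj h
          exact Or.inl (by rw [h8, h9])
    · have h3 : w = w' := h3
      subst h3
      have h4 : r w b c := h4
      exact ⟨step w b c hwb hwc h4, step w c b hwc hwb (hr.symm w b c hwb hwc h4)⟩
  | refl x => exact Iff.rfl
  | symm x y _ ih => exact ih.symm
  | trans x y z _ _ ih1 ih2 => exact ih1.trans ih2

/-- the stabilizers of the cylinders which are not single edges -/
theorem cylQ (hC : ClosedE C) (hM : ∀ (G : Type) [Group G], derivedSeries G 2 = ⊥ → C G)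
    (hA : AcylR C) (hT : T.IsTree)
    (hact : ∀ (g : G) (u v : V), T.Adj u v → T.Adj (g • u) (g • v)) (hr : LR G T r)
    (hV : ∀ v : V, C ↥(MulAction.stabilizer G v)) (Q : V → V → Subgroup G)
    (heqv : ∀ (g : G) (v a : V), T.Adj v a → ∀ x ∈ Q v a, g * x * g⁻¹ ∈ Q (g • v) (g • a))
    (y : Cyl T r) (K : Subgroup G) (hK : ∀ g ∈ K, Pres hact y g)
    (hQ : ∀ (v a : V) (h : T.Adj v a), cy r h = y → Fe C T r Q v a) : C K := by
  obtain ⟨W, _, T', ι, hst, hcy⟩ := cyl_subtree hT hact hr y K hK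
  have hVK : ∀ w : W, C ↥(MulAction.stabilizer K w) := by
    intro w
    rw [hst.stab]
    exact C_stab hC K _ (hV _)
  by_cases hne : ∃ u v, T'.Adj u v
  swap
  · push Not at hne
    exact no_edges hC hst.tree hVK hne
  obtain ⟨u0, v0, huv0⟩ := hne
  have hnb : ∀ w : W, ∃ z, T'.Adj w z := by
    intro w
    by_cases h : w = u0
    · exact ⟨v0, h ▸ huv0⟩
    · obtain ⟨a, ha⟩ := St_exists hst.tree h
      exact ⟨a, ha.1⟩
  choose nb hnb using hnb
  have hFe : ∀ w z : W, T'.Adj w z → Fe C T r Q (ι w) (ι z) := fun w z h =>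
    hQ _ _ (hst.adj _ _ h) (hcy _ _ h _)
  have hrel : ∀ w z z' : W, T'.Adj w z → T'.Adj w z' → r (ι w) (ι z) (ι z') := fun w z z' h h' =>
    gl hT hr (hst.adj _ _ h) (hst.adj _ _ h') ((hcy _ _ h _).trans (hcy _ _ h' _).symm)
  have heq : ∀ w z z' : W, T'.Adj w z → T'.Adj w z' → Q (ι w) (ι z) = Q (ι w) (ι z') :=
    fun w z z' h h' => (hFe w z h).cls _ (hst.adj _ _ h') (hrel w z z' h h')
  obtain ⟨R, hRd⟩ : ∃ R : W → Subgroup K, ∀ w (x : K), x ∈ R w ↔
      (x : G) ∈ Q (ι w) (ι (nb w)) :=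
    ⟨fun w => (Q (ι w) (ι (nb w))).subgroupOf K, fun w x => Subgroup.mem_subgroupOf⟩
  have hRz : ∀ w z : W, T'.Adj w z → ∀ x : K, x ∈ R w ↔ (x : G) ∈ Q (ι w) (ι z) := by
    intro w z h x
    rw [hRd, heq w (nb w) z (hnb w) h]
  have hR : Fm T' R := by
    refine ⟨fun w x hx => ?_, fun g w x hx => ?_, fun u w huw x hx hxu => ?_⟩
    · rw [hRd] at hx
      exact hst.fix.2 ((hFe w (nb w) (hnb w)).fix _ hx).1
    · rw [hRd] at hx
      have h1 := heqv (g : G) _ _ (hst.adj _ _ (hnb w)) _ hx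
      rw [hRz (g • w) (g • nb w) (hst.act g _ _ (hnb w)), hst.eqv, hst.eqv]
      exact h1
    · rw [hRz w u huw.symm] at hx
      rw [hRz u w huw]
      exact (hFe w u huw.symm).cmp _ hx (hst.fix.1 hxu)
  refine famI (G := K) (V := W) (T := T') hC hM hA hst.tree hst.act hVK hR ?_ ?_ ?_
  · intro w
    rcases (hFe w (nb w) (hnb w)).ab with h | ⟨L, P, _, f, hP, hL, hf⟩
    · left
      intro x hx z hz
      rw [hRd] at hx hz
      exact Subtype.ext (h _ hx _ hz)
    · right
      have hr' : ∀ x : MulAction.stabilizer K w, ((x : K) : G) • ι w = ι w ∧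
          r (ι w) (ι (nb w)) (((x : K) : G) • ι (nb w)) := by
        intro x
        have hxw : (x : K) • w = w := x.2
        refine ⟨hst.fix.1 hxw, ?_⟩
        have h1 := hst.act (x : K) _ _ (hnb w)
        rw [hxw] at h1
        have h2 := hrel w _ _ (hnb w) h1
        rw [hst.eqv] at h2
        exact h2
      let j : MulAction.stabilizer K w →* L :=
        ((K.subtype).comp (Subgroup.subtype (MulAction.stabilizer K w))).codRestrict L
          (fun x => hL _ (hr' x).1 (hr' x).2)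
      refine ⟨P, _, f.comp j, hP, fun x => ?_⟩
      rw [hRd]
      exact hf (j x) (hr' x).1 (hr' x).2
  · intro w z hwz x hxz hx
    refine Subtype.ext ((hFe w z hwz).com x ?_ (hst.fix.1 hxz))
    have h1 : (x : G) ∈ (⁅R w, R w⁆).map K.subtype := ⟨x, hx, rfl⟩
    rw [Subgroup.map_commutator] at h1
    have h2 : (R w).map K.subtype ≤ Q (ι w) (ι z) := by
      rintro _ ⟨x, hx, rfl⟩
      exact (hRz w z hwz x).1 hx
    exact Subgroup.commutator_mono h2 h2 h1
  · intro w z hwz h0
    have h1 : (R w).relIndex (Eg K w z) =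
        (Q (ι w) (ι z)).relIndex ((Eg K w z).map K.subtype) := by
      have h2 : R w = (Q (ι w) (ι z)).comap K.subtype := by
        ext x
        exact hRz w z hwz x
      rw [h2]
      exact Subgroup.relIndex_comap _ K.subtype _
    rw [h1] at h0
    refine (hFe w z hwz).ind (Subgroup.relIndex_eq_zero_of_le_right ?_ h0)
    rintro _ ⟨x, hx, rfl⟩
    exact ⟨hst.fix.1 hx.1, hst.fix.1 hx.2⟩

/-- **the general theorem** -/
theorem main (hC : ClosedE C) (hM : ∀ (G : Type) [Group G], derivedSeries G 2 = ⊥ → C G)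
    (hA : AcylR C) (hT : T.IsTree)
    (hact : ∀ (g : G) (u v : V), T.Adj u v → T.Adj (g • u) (g • v))
    (hV : ∀ v : V, C ↥(MulAction.stabilizer G v)) (hr : LR G T r) (k n : ℕ)
    (hint : Acy G T r k n) (Q : V → V → Subgroup G)
    (heqv : ∀ (g : G) (v a : V), T.Adj v a → ∀ x ∈ Q v a, g * x * g⁻¹ ∈ Q (g • v) (g • a))
    (hE : ∀ y : Cyl T r, (∀ K : Subgroup G, (∀ g ∈ K, Pres hact y g) → C K) ∨
      ∀ (v a : V) (h : T.Adj v a), cy r h = y → Fe C T r Q v a) : C G := by
  refine cylK hC (hA.acylF hC) hT hact hr k n hint hV fun y K hK => ?_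
  rcases hE y with h | h
  · exact h K hK
  · exact cylQ hC hM hA hT hact hr hV Q heqv y K hK h

/-- the case where all classes are single edges or satisfy the conditions on the family -/
theorem general (hC : ClosedE C) (hM : ∀ (G : Type) [Group G], derivedSeries G 2 = ⊥ → C G)
    (hA : AcylR C) (hT : T.IsTree)
    (hact : ∀ (g : G) (u v : V), T.Adj u v → T.Adj (g • u) (g • v))
    (hV : ∀ v : V, C ↥(MulAction.stabilizer G v)) (hr : LR G T r) (k n : ℕ)
    (hint : Acy G T r k n) (Q : V → V → Subgroup G)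
    (heqv : ∀ (g : G) (v a : V), T.Adj v a → ∀ x ∈ Q v a, g * x * g⁻¹ ∈ Q (g • v) (g • a))
    (hE : ∀ v a, T.Adj v a → (Isd T r v a ∧ Isd T r a v) ∨ Fe C T r Q v a) : C G := by
  refine main hC hM hA hT hact hV hr k n hint Q heqv fun y => ?_
  obtain ⟨⟨⟨v0, a0⟩, h0⟩, hy⟩ := Quotient.exists_rep y
  have h0 : T.Adj v0 a0 := h0
  have hy : cy r h0 = y := hy
  by_cases hiso : Isd T r v0 a0 ∧ Isd T r a0 v0
  · left
    intro K hK
    subst hy
    refine C_edge hC v0 a0 (hV v0) K fun g hg => ?_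
    have h1 := hK g hg v0 a0 h0 rfl
    rcases (iso_gen (p := dt h0) (q := dt (hact g v0 a0 h0)) hr hiso.1 hiso.2
      (Quotient.exact h1.symm)).1 (Or.inl rfl) with h | h
    · exact Or.inl (Prod.mk.inj h)
    · exact Or.inr (Prod.mk.inj h)
  · right
    intro v a h hy'
    rcases hE v a h with h1 | h1
    · exfalso
      apply hiso
      rcases (iso_gen (p := dt h) (q := dt h0) hr h1.1 h1.2
        (Quotient.exact (hy'.trans hy.symm))).1 (Or.inl rfl) with h2 | h2
      · obtain ⟨h3, h4⟩ := Prod.mk.inj h2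
        rw [h3, h4]
        exact h1
      · obtain ⟨h3, h4⟩ := Prod.mk.inj h2
        rw [h3, h4]
        exact ⟨h1.2, h1.1⟩
    · exact h1

end Run7.h371.FK
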