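import Pool.Agent.Run7.h371.FK.Co

/-!
# Unique roots, and edge groups of finite index
-/

set_option autoImplicit false

namespace Run7.h371.FK

open SimpleGraph
open scoped commutatorElement
open Subgroup (Commensurable)
open Pool.Agent.N509.TK
open Pool.Agent.Y110.FJ
open Pool.Agent.N509.TX (AcylF C_edge C_stab of_fg of_fg_mem STree cyl_subtree)
open Pool.Agent.R941.FJ (C_equiv C_le C_cyc mem_sup_normal)
open Run7.h371.FJ

variable {C : ∀ (G : Type) [Group G], Prop}
variable {G V : Type} {T : SimpleGraph V} [Group G] [MulAction G V] {r : V → V → V → Prop}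

theorem pow_of_comm' {E A : Subgroup G} {t : G} (htE : t ∈ E) (hAE : Commensurable A E) :
    ∃ m : ℕ, m ≠ 0 ∧ t ^ m ∈ A := by
  obtain ⟨n, hn, -, h2⟩ := Subgroup.exists_pow_mem_of_relIndex_ne_zero hAE.1 htE
  exact ⟨n, hn.ne', h2.1⟩

theorem comm_map (g : G) {A B : Subgroup G} (h : Commensurable A B) :
    Commensurable (A.map (MulAut.conj g).toMonoidHom) (B.map (MulAut.conj g).toMonoidHom) := by
  have h0 : ∀ A B : Subgroup G, A.relIndex B ≠ 0 →
      (A.map (MulAut.conj g).toMonoidHom).relIndex (B.map (MulAut.conj g).toMonoidHom) ≠ 0 := by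
    intro A B h
    rw [Subgroup.relIndex_map_map_of_injective _ _ (MulAut.conj g).injective]
    exact h
  exact ⟨h0 A B h.1, h0 B A h.2⟩

theorem Eg_map (g : G) (v a : V) :
    (Eg G v a).map (MulAut.conj g).toMonoidHom = Eg G (g • v) (g • a) := by
  ext x
  constructor
  · rintro ⟨y, hy, rfl⟩
    exact Eg_conj g hy
  · intro hx
    have h1 := Eg_conj g⁻¹ hx
    rw [inv_smul_smul, inv_smul_smul] at h1
    refine ⟨_, h1, ?_⟩
    show g * (g⁻¹ * x * g⁻¹⁻¹) * g⁻¹ = x
    group

/-- **abelian edge groups with unique roots** -/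
theorem roots (hC : ClosedE C) (hM : ∀ (G : Type) [Group G], derivedSeries G 2 = ⊥ → C G)
    (hA : AcylR C) (hT : T.IsTree)
    (hact : ∀ (g : G) (u v : V), T.Adj u v → T.Adj (g • u) (g • v))
    (hV : ∀ v : V, C ↥(MulAction.stabilizer G v))
    (hab : ∀ v a, T.Adj v a → ∀ x ∈ Eg G v a, ∀ y ∈ Eg G v a, x * y = y * x)
    (hU : ∀ v a, T.Adj v a → ∀ x y : G, x • v = v → y • v = v → ∀ m : ℕ, m ≠ 0 → x ^ m = y ^ m →
      x ^ m ∈ Eg G v a → x = y) (n : ℕ)
    (hint : ∀ v a b, T.Adj v a → T.Adj v b → a ≠ b → Commensurable (Eg G v a) (Eg G v b) ∨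
      ∀ F : Finset G, (∀ g ∈ F, g ∈ Eg G v a ∧ g ∈ Eg G v b) → F.card ≤ n) : C G := by
  classical
  obtain ⟨r, hr'⟩ : ∃ r : V → V → V → Prop, ∀ v a b, r v a b ↔
      Commensurable (Eg G v a) (Eg G v b) := ⟨_, fun _ _ _ => Iff.rfl⟩
  have hr : LR G T r := by
    refine ⟨fun w a _ => (hr' w a a).2 (Commensurable.refl _), fun w a b _ _ h => ?_,
      fun w a b c _ _ _ h h' => ?_, fun g w a b h => ?_⟩
    · rw [hr'] at h ⊢
      exact h.symm
    · rw [hr'] at h h' ⊢
      exact h.trans h'
    · rw [hr'] at h ⊢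
      have h1 := comm_map g h
      rwa [Eg_map, Eg_map] at h1
  -- powers in the edge groups
  have hcomm : ∀ v a, T.Adj v a → ∀ x y : G, x • v = v → y • v = v → ∀ m k : ℕ, m ≠ 0 → k ≠ 0 →
      x ^ m ∈ Eg G v a → y ^ k ∈ Eg G v a → x * y = y * x := by
    intro v a hva x y hxv hyv m k hm hk hx hy
    have h1 := hab v a hva _ hx _ hy
    have hxv' : x ∈ MulAction.stabilizer G v := hxv
    have hyv' : y ∈ MulAction.stabilizer G v := hyv
    -- `x` commutes with `y ^ k`
    have h2 : x = y ^ k * x * (y ^ k)⁻¹ := by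
      refine hU v a hva x _ hxv ?_ m hm ?_ hx
      · exact mul_mem (mul_mem (pow_mem hyv' k) hxv') (inv_mem (pow_mem hyv' k))
      · rw [conj_pow, ← h1, mul_inv_cancel_right]
    have h3 : x * y ^ k = y ^ k * x := by
      conv_lhs => rw [h2]
      rw [inv_mul_cancel_right]
    have h4 : y = x * y * x⁻¹ := by
      refine hU v a hva y _ hyv ?_ k hk ?_ hy
      · exact mul_mem (mul_mem hxv' hyv') (inv_mem hxv')
      · rw [conj_pow, h3, mul_inv_cancel_right]
    conv_rhs => rw [h4]
    rw [inv_mul_cancel_right]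
  obtain ⟨Q, hQ⟩ : ∃ Q : V → V → Subgroup G, ∀ v a, T.Adj v a → ∀ x : G, x ∈ Q v a ↔
      (x • v = v ∧ ∃ m : ℕ, m ≠ 0 ∧ x ^ m ∈ Eg G v a) := by
    refine ⟨fun v a => if h : T.Adj v a then
      { carrier := {x | x • v = v ∧ ∃ m : ℕ, m ≠ 0 ∧ x ^ m ∈ Eg G v a}
        one_mem' := ⟨one_smul G v, 1, one_ne_zero, by rw [one_pow]; exact one_mem _⟩
        mul_mem' := by
          rintro x y ⟨hx, m, hm, hx'⟩ ⟨hy, k, hk, hy'⟩
          refine ⟨by rw [mul_smul, hy, hx], m * k, mul_ne_zero hm hk, ?_⟩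
          have h1 : Commute x y := hcomm v a h x y hx hy m k hm hk hx' hy'
          rw [h1.mul_pow, pow_mul, mul_comm m k, pow_mul]
          exact mul_mem (pow_mem hx' k) (pow_mem hy' m)
        inv_mem' := by
          rintro x ⟨hx, m, hm, hx'⟩
          refine ⟨by rw [inv_smul_eq_iff, hx], m, hm, ?_⟩
          rw [inv_pow]
          exact inv_mem hx' } else ⊥, fun v a h x => ?_⟩
    dsimp only
    rw [dif_pos h]
    exact Iff.rfl
  have hQab : ∀ v a, T.Adj v a → ∀ x ∈ Q v a, ∀ y ∈ Q v a, x * y = y * x := by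
    intro v a h x hx y hy
    rw [hQ v a h] at hx hy
    obtain ⟨hxv, m, hm, hx'⟩ := hx
    obtain ⟨hyv, k, hk, hy'⟩ := hy
    exact hcomm v a h x y hxv hyv m k hm hk hx' hy'
  have hEQ : ∀ v a, T.Adj v a → Eg G v a ≤ Q v a := by
    intro v a h x hx
    exact (hQ v a h x).2 ⟨hx.1, 1, one_ne_zero, by rwa [pow_one]⟩
  refine general hC hM hA hT hact hV hr 2 (max n 1) ?_ Q ?_ ?_
  · refine Acy_two hT hact hr _ fun w a b ha hb hab' F hF => ?_
    by_cases h : a = b
    · subst h
      exact absurd ((hr' w a a).2 (Commensurable.refl _)) hab'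
    · rcases hint w a b ha hb h with h1 | h1
      · exact absurd ((hr' w a b).2 h1) hab'
      · exact (h1 F hF).trans (le_max_left _ _)
  · intro g v a hva x hx
    rw [hQ _ _ (hact g v a hva)]
    rw [hQ v a hva] at hx
    obtain ⟨hxv, m, hm, hx'⟩ := hx
    refine ⟨?_, m, hm, ?_⟩
    · rw [mul_smul, inv_smul_smul, mul_smul, hxv]
    · rw [conj_pow]
      exact Eg_conj g hx'
  · intro v a hva
    right
    refine ⟨fun x hx => ?_, fun b hb h => ?_, fun x hx hxa => ?_, fun x hx _ => ?_,
      ri_one (hEQ v a hva), Or.inl (hQab v a hva)⟩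
    · have hxv := ((hQ v a hva x).1 hx).1
      refine ⟨hxv, (hr' _ _ _).2 ?_⟩
      have h1 : Eg G v a ≤ Eg G v (x • a) := by
        intro e he
        have h2 := Eg_conj x he
        rw [hxv, hQab v a hva x hx e (hEQ v a hva he), mul_inv_cancel_right] at h2
        exact h2
      have h2 : Eg G v (x • a) ≤ Eg G v a := by
        intro e he
        have h3 := Eg_conj x⁻¹ he
        rw [inv_smul_smul, inv_smul_eq_iff.2 hxv.symm] at h3
        have h4 := hQab v a hva x hx _ (hEQ v a hva h3)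
        have h5 : x * (x⁻¹ * e * x⁻¹⁻¹) * x⁻¹ = e := by group
        rw [h4, mul_inv_cancel_right] at h5
        rwa [h5] at h3
      rw [le_antisymm h1 h2]
    · rw [hr'] at h
      have key : ∀ a b : V, T.Adj v a → T.Adj v b → Commensurable (Eg G v b) (Eg G v a) →
          ∀ z ∈ Q v a, z ∈ Q v b := by
        intro a b ha hb h z hz
        rw [hQ v a ha] at hz
        rw [hQ v b hb]
        obtain ⟨hzv, m, hm, hz'⟩ := hz
        obtain ⟨k, hk, h1⟩ := pow_of_comm' hz' h
        exact ⟨hzv, m * k, mul_ne_zero hm hk, by rwa [pow_mul]⟩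
      ext z
      exact ⟨key a b hva hb h.symm z, key b a hb hva h z⟩
    · rw [hQ v a hva] at hx
      rw [hQ a v hva.symm]
      obtain ⟨_, m, hm, hx'⟩ := hx
      exact ⟨hxa, m, hm, Eg_swap hx'⟩
    · exact com_bot (hQab v a hva) hx

/-- the elements of `A` whose centralizer in `A` has finite index -/
def Fcc {G : Type} [Group G] (A : Subgroup G) (x : G) : Prop :=
  x ∈ A ∧ (Subgroup.centralizer {x}).relIndex A ≠ 0

theorem relIndex_inf' {A B H : Subgroup G} (h1 : A.relIndex H ≠ 0) (h2 : B.relIndex H ≠ 0) :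
    (A ⊓ B).relIndex H ≠ 0 := Subgroup.relIndex_inf_ne_zero h1 h2

theorem Fcc.mul {A : Subgroup G} {x y : G} (hx : Fcc A x) (hy : Fcc A y) : Fcc A (x * y) := by
  refine ⟨mul_mem hx.1 hy.1, fun h0 => relIndex_inf' hx.2 hy.2 ?_⟩
  refine Subgroup.relIndex_eq_zero_of_le_left ?_ h0
  rintro z ⟨h1, h2⟩
  have h1 : z ∈ Subgroup.centralizer {x} := h1
  have h2 : z ∈ Subgroup.centralizer {y} := h2
  rw [Subgroup.mem_centralizer_singleton_iff] at h1 h2 ⊢
  rw [← mul_assoc, h1, mul_assoc, h2, mul_assoc]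

/-- **edge groups of finite index**: virtually abelian vertex groups in which the elements with finitely
many conjugates commute -/
theorem finiteIndex (hC : ClosedE C) (hM : ∀ (G : Type) [Group G], derivedSeries G 2 = ⊥ → C G)
    (hA : AcylR C) (hT : T.IsTree)
    (hact : ∀ (g : G) (u v : V), T.Adj u v → T.Adj (g • u) (g • v))
    (hfi : ∀ v a, T.Adj v a → (MulAction.stabilizer G a).relIndex (MulAction.stabilizer G v) ≠ 0)
    (hva : ∀ v : V, ∃ A : Subgroup G, A ≤ MulAction.stabilizer G v ∧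
      A.relIndex (MulAction.stabilizer G v) ≠ 0 ∧ ∀ x ∈ A, ∀ y ∈ A, x * y = y * x)
    (hab : ∀ v : V, ∀ x y : G, Fcc (MulAction.stabilizer G v) x →
      Fcc (MulAction.stabilizer G v) y → x * y = y * x) : C G := by
  obtain ⟨R, hR⟩ : ∃ R : V → Subgroup G, ∀ v x, x ∈ R v ↔ Fcc (MulAction.stabilizer G v) x := by
    refine ⟨fun v =>
      { carrier := {x | Fcc (MulAction.stabilizer G v) x}
        one_mem' := by
          refine ⟨one_mem _, ?_⟩
          have h1 : Subgroup.centralizer {(1 : G)} = ⊤ := by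
            rw [eq_top_iff]
            intro z _
            rw [Subgroup.mem_centralizer_singleton_iff, one_mul, mul_one]
          rw [h1, Subgroup.relIndex_top_left]
          exact one_ne_zero
        mul_mem' := fun hx hy => hx.mul hy
        inv_mem' := by
          rintro x ⟨hx, hx'⟩
          refine ⟨inv_mem hx, ?_⟩
          have h1 : Subgroup.centralizer {x⁻¹} = Subgroup.centralizer {x} := by
            ext z
            rw [Subgroup.mem_centralizer_singleton_iff, Subgroup.mem_centralizer_singleton_iff]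
            constructor
            · intro h
              have h2 : x * (z * x⁻¹) * x = x * (x⁻¹ * z) * x := by rw [h]
              have h3 : x * (z * x⁻¹) * x = x * z := by group
              have h4 : x * (x⁻¹ * z) * x = z * x := by group
              rw [← h4, ← h2, h3]
            · intro h
              have h2 : x⁻¹ * (z * x) * x⁻¹ = x⁻¹ * (x * z) * x⁻¹ := by rw [h]
              have h3 : x⁻¹ * (z * x) * x⁻¹ = x⁻¹ * z := by group
              have h4 : x⁻¹ * (x * z) * x⁻¹ = z * x⁻¹ := by group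
              rw [← h4, ← h2, h3]
          rw [h1]
          exact hx' }, fun v x => Iff.rfl⟩
  have hRs : ∀ v, R v ≤ MulAction.stabilizer G v := fun v x hx => ((hR v x).1 hx).1
  have hbd : ∀ v, (R v).relIndex (MulAction.stabilizer G v) ≠ 0 := by
    intro v h0
    obtain ⟨A, hA1, hA2, hA3⟩ := hva v
    refine hA2 (Subgroup.relIndex_eq_zero_of_le_left ?_ h0)
    intro x hx
    refine (hR v x).2 ⟨hA1 hx, fun h1 => hA2 (Subgroup.relIndex_eq_zero_of_le_left ?_ h1)⟩
    intro y hy
    rw [Subgroup.mem_centralizer_singleton_iff]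
    exact hA3 y hy x hx
  have habR : ∀ v, ∀ x ∈ R v, ∀ y ∈ R v, x * y = y * x := fun v x hx y hy =>
    hab v x y ((hR v x).1 hx) ((hR v y).1 hy)
  refine famI hC hM hA hT hact ?_ (R := R) ⟨fun v x hx => hRs v hx, fun g v x hx => ?_,
    fun u v huv x hx hxu => ?_⟩ (fun v => Or.inl (habR v)) (fun v u _ x _ hx => com_bot (habR v) hx)
    fun u v _ h0 => hbd u (by
      exact Subgroup.relIndex_eq_zero_of_le_right inf_le_left h0)
  · intro v
    refine Pool.Agent.Y529.FJ.up hC.base (hRs v) (hbd v) ?_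
    refine hM _ ?_
    refine metab ⊤ (fun x _ y _ => Subtype.ext (habR v x x.2 y y.2)) fun x y => Subgroup.mem_top _
  · rw [hR] at hx ⊢
    obtain ⟨h1, h2⟩ := hx
    have h3 : MulAction.stabilizer G (g • v) =
        (MulAction.stabilizer G v).map (MulAut.conj g).toMonoidHom :=
      MulAction.stabilizer_smul_eq_stabilizer_map_conj g v
    have h4 : Subgroup.centralizer {g * x * g⁻¹} =
        (Subgroup.centralizer {x}).map (MulAut.conj g).toMonoidHom := by
      ext z
      rw [Subgroup.mem_centralizer_singleton_iff]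
      constructor
      · intro h
        refine ⟨g⁻¹ * z * g, ?_, ?_⟩
        · show g⁻¹ * z * g ∈ Subgroup.centralizer {x}
          rw [Subgroup.mem_centralizer_singleton_iff]
          have h5 : g⁻¹ * (z * (g * x * g⁻¹)) * g = g⁻¹ * (g * x * g⁻¹ * z) * g := by rw [h]
          have h6 : g⁻¹ * (z * (g * x * g⁻¹)) * g = g⁻¹ * z * g * x := by group
          have h7 : g⁻¹ * (g * x * g⁻¹ * z) * g = x * (g⁻¹ * z * g) := by group
          rw [← h6, h5, h7]
        · show g * (g⁻¹ * z * g) * g⁻¹ = z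
          group
      · rintro ⟨w, hw, rfl⟩
        have hw : w ∈ Subgroup.centralizer {x} := hw
        rw [Subgroup.mem_centralizer_singleton_iff] at hw
        show g * w * g⁻¹ * (g * x * g⁻¹) = g * x * g⁻¹ * (g * w * g⁻¹)
        have h5 : g * w * g⁻¹ * (g * x * g⁻¹) = g * (w * x) * g⁻¹ := by group
        have h6 : g * x * g⁻¹ * (g * w * g⁻¹) = g * (x * w) * g⁻¹ := by group
        rw [h5, h6, hw]
    refine ⟨?_, ?_⟩
    · rw [h3]
      exact ⟨x, h1, rfl⟩
    · rw [h3, h4, Subgroup.relIndex_map_map_of_injective _ _ (MulAut.conj g).injective]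
      exact h2
  · rw [hR] at hx ⊢
    obtain ⟨h1, h2⟩ := hx
    refine ⟨hxu, ?_⟩
    -- the stabilizer of the edge has finite index in that of `u`
    have h3 : (Eg G v u).relIndex (MulAction.stabilizer G u) ≠ 0 := by
      show (MulAction.stabilizer G v ⊓ MulAction.stabilizer G u).relIndex
        (MulAction.stabilizer G u) ≠ 0
      rw [Subgroup.inf_relIndex_right]
      exact hfi u v huv
    have h4 : (Subgroup.centralizer {x}).relIndex (Eg G v u) ≠ 0 := by
      intro h0
      exact h2 (Subgroup.relIndex_eq_zero_of_le_right inf_le_left h0)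
    have h5 := Subgroup.relIndex_ne_zero_trans h4 h3
    exact h5

end Run7.h371.FK
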