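import Pool.Agent.Run7.h371.FK.Cg
import Pool.Agent.Run7.h371.FJ.Ac

/-!
# Groups generated by a family and the stabilizer of a vertex
-/

set_option autoImplicit false

namespace Run7.h371.FK

open SimpleGraph
open scoped commutatorElement
open Pool.Agent.N509.TK
open Pool.Agent.Y110.FJ
open Pool.Agent.N509.TX (AcylF C_edge C_stab of_fg of_fg_mem)
open Pool.Agent.R941.FJ (C_equiv C_le C_cyc mem_sup_normal)
open Run7.h371.FJ

variable {C : ∀ (G : Type) [Group G], Prop}
variable {G V : Type} {T : SimpleGraph V} [Group G] [MulAction G V] {R : V → Subgroup G}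

/-- a finite set of elements of `A` which are pairwise distinct modulo `B` has at most `m` elements -/
def Bd {G : Type} [Group G] (m : ℕ) (A B : Subgroup G) : Prop :=
  ∀ F : Finset G, (∀ g ∈ F, g ∈ A) → (∀ g ∈ F, ∀ g' ∈ F, g⁻¹ * g' ∈ B → g = g') → F.card ≤ m

theorem Bd.ne {m : ℕ} {A B : Subgroup G} (h : Bd m A B) : B.relIndex A ≠ 0 := by
  classical
  suffices hf : Finite (A ⧸ B.subgroupOf A) by
    have h1 : (B.subgroupOf A).index ≠ 0 := Subgroup.index_ne_zero_of_finite
    exact h1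
  by_contra hinf
  rw [not_finite_iff_infinite] at hinf
  obtain ⟨t, ht⟩ := Infinite.exists_subset_card_eq (A ⧸ B.subgroupOf A) (m + 1)
  choose a ha using fun q : A ⧸ B.subgroupOf A => QuotientGroup.mk_surjective q
  have hinj : Function.Injective fun q : A ⧸ B.subgroupOf A => ((a q : A) : G) := by
    intro q q' h
    have h1 : a q = a q' := Subtype.ext h
    rw [← ha q, ← ha q', h1]
  have h1 := h (t.image fun q => ((a q : A) : G)) (by
    intro g hg
    obtain ⟨q, _, rfl⟩ := Finset.mem_image.1 hg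
    exact (a q).2) (by
    intro g hg g' hg' hgg
    obtain ⟨q, _, rfl⟩ := Finset.mem_image.1 hg
    obtain ⟨q', _, rfl⟩ := Finset.mem_image.1 hg'
    have h2 : (QuotientGroup.mk (a q) : A ⧸ B.subgroupOf A) = QuotientGroup.mk (a q') := by
      refine QuotientGroup.eq.2 ?_
      rw [Subgroup.mem_subgroupOf]
      exact hgg
    rw [ha, ha] at h2
    rw [h2])
  rw [Finset.card_image_of_injective _ hinj, ht] at h1
  omega

/-- images in a quotient -/
theorem Bd.img {m : ℕ} {A B N : Subgroup G} [N.Normal] (h : Bd m A B) (hBN : B ≤ N)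
    (F : Finset (G ⧸ N)) (hF : ∀ q ∈ F, ∃ g ∈ A, (QuotientGroup.mk g : G ⧸ N) = q) :
    F.card ≤ m := by
  classical
  have hex : ∀ q : G ⧸ N, ∃ g : G, (q ∈ F → g ∈ A) ∧ (QuotientGroup.mk g : G ⧸ N) = q := by
    intro q
    by_cases hq : q ∈ F
    · obtain ⟨g, hg, h1⟩ := hF q hq
      exact ⟨g, fun _ => hg, h1⟩
    · obtain ⟨g, hg⟩ := QuotientGroup.mk_surjective q
      exact ⟨g, fun h => absurd h hq, hg⟩
  choose e heA he using hex
  have hinj : Function.Injective e := fun q q' h1 => by rw [← he q, ← he q', h1]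
  have h1 := h (F.image e) (by
    intro g hg
    obtain ⟨q, hq, rfl⟩ := Finset.mem_image.1 hg
    exact heA q hq) (by
    intro g hg g' hg' hgg
    obtain ⟨q, _, rfl⟩ := Finset.mem_image.1 hg
    obtain ⟨q', _, rfl⟩ := Finset.mem_image.1 hg'
    have h2 : (QuotientGroup.mk (e q) : G ⧸ N) = QuotientGroup.mk (e q') :=
      QuotientGroup.eq.2 (hBN hgg)
    rw [he, he] at h2
    rw [h2])
  rwa [Finset.card_image_of_injective _ hinj] at h1

/-- the edge group -/
def Eg (G : Type) {V : Type} [Group G] [MulAction G V] (u v : V) : Subgroup G :=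
  MulAction.stabilizer G u ⊓ MulAction.stabilizer G v

/-- products of a vertex group and a normal subgroup which acts freely -/
theorem C_free_sup (hC : ClosedE C) (hT : T.IsTree)
    (hact : ∀ (g : G) (u v : V), T.Adj u v → T.Adj (g • u) (g • v))
    (hV : ∀ v : V, C ↥(MulAction.stabilizer G v)) (M : Subgroup G) [hM : M.Normal]
    (hMe : ∀ u v, T.Adj u v → ∀ g ∈ M, g • u = u → g • v = v → g = 1) (u : V)
    (hMu : ∀ g ∈ M, g • u = u → g = 1) : C ↥(M ⊔ MulAction.stabilizer G u) := by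
  obtain ⟨X, hX⟩ : ∃ X : Subgroup G, X = M ⊔ MulAction.stabilizer G u := ⟨_, rfl⟩
  have huX : MulAction.stabilizer G u ≤ X := hX ▸ le_sup_right
  have hMX : M ≤ X := hX ▸ le_sup_left
  rw [← hX]
  obtain ⟨D, hD⟩ : ∃ D : Subgroup X, D = M.subgroupOf X := ⟨_, rfl⟩
  have hmD : ∀ x : X, x ∈ D ↔ (x : G) ∈ M := fun x => by rw [hD, Subgroup.mem_subgroupOf]
  have hDn : D.Normal := by
    refine ⟨fun x hx g => ?_⟩
    rw [hmD] at hx ⊢
    exact hM.conj_mem _ hx g
  let j : MulAction.stabilizer G u →* X ⧸ D :=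
    (QuotientGroup.mk' D).comp (Subgroup.inclusion huX)
  have hj : Function.Bijective j := by
    constructor
    · rw [injective_iff_map_eq_one]
      rintro ⟨x, hx⟩ hjx
      have h1 : x ∈ M := (hmD ⟨x, huX hx⟩).1 ((QuotientGroup.eq_one_iff _).1 hjx)
      exact Subtype.ext (hMu x h1 hx)
    · intro q
      obtain ⟨⟨x, hx⟩, rfl⟩ := QuotientGroup.mk_surjective q
      have hx' := hx
      rw [hX] at hx'
      obtain ⟨a, ha, b, hb, rfl⟩ := mem_sup_normal.1 hx'
      refine ⟨⟨b, hb⟩, ?_⟩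
      show (QuotientGroup.mk (⟨b, huX hb⟩ : X) : X ⧸ D) = QuotientGroup.mk (⟨a * b, hx⟩ : X)
      refine QuotientGroup.eq.2 ((hmD _).2 ?_)
      show b⁻¹ * (a * b) ∈ M
      have h1 : b⁻¹ * (a * b) = b⁻¹ * a * b⁻¹⁻¹ := by group
      rw [h1]
      exact hM.conj_mem a ha b⁻¹
  have hP : C (X ⧸ D) := C_equiv hC.base (MulEquiv.ofBijective j hj).symm (hV u)
  refine crit (G := X) (V := V) (T := T) hC hT (fun x u v h => hact x u v h)
    (QuotientGroup.mk' D) hP ?_ ?_
  · intro u v huv g hgu hgv hg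
    exact Subtype.ext (hMe u v huv g ((hmD g).1 ((QuotientGroup.eq_one_iff _).1 hg)) hgu hgv)
  · intro v g hg
    refine C_le hC.base (sup_le inf_le_left ?_) (C_stab hC X v (hV v))
    rw [Subgroup.zpowers_le]
    exact hg

/-- the finitely generated case, for a vertex of a transversal -/
theorem root_fg' (hC : ClosedE C) (hM : ∀ (G : Type) [Group G], derivedSeries G 2 = ⊥ → C G)
    (hA : AcylR C) (hfg : Group.FG G) (hT : T.IsTree)
    (hact : ∀ (g : G) (u v : V), T.Adj u v → T.Adj (g • u) (g • v))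
    (hV : ∀ v : V, C ↥(MulAction.stabilizer G v)) (hR : Fm T R)
    {S : Set V} (hq : Tq T (⨆ v, R v) S) (s : V) (hsS : s ∈ S)
    (hs : ∀ g : G, ∃ n ∈ ⨆ v, R v, g • s = n • s)
    (hab : ∀ x ∈ R s, ∀ y ∈ R s, x * y = y * x)
    (hE : ∀ v u : V, T.Adj v u → ∀ x : G, x • u = u → x ∈ ⁅R v, R v⁆ → x = 1)
    (m : ℕ) (hm : ∀ u v, T.Adj u v → Bd m (Eg G u v) (R u)) : C G := by
  classical
  obtain ⟨N, hN⟩ : ∃ N : Subgroup G, N = ⨆ v, R v := ⟨_, rfl⟩
  have hNn : N.Normal := hN ▸ hR.normal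
  have hRN : ∀ v, R v ≤ N := fun v => hN ▸ le_iSup R v
  have hst : ∀ {x : G}, x ∈ N → ∀ {v : V}, x • v = v → x ∈ R v := fun {x} hx {v} h =>
    hR.stab hT hact (hN ▸ hx) h
  -- the commutator subgroup of `N`
  have hSb : ∀ v : V, Sb N v = R v := by
    intro v
    ext y
    rw [mem_Sb]
    exact ⟨fun h => hst h.2 h.1, fun h => ⟨hR.fix v y h, hRN v h⟩⟩
  have hsup : (⨆ v : V, Sb N v) = N := by
    rw [hN]
    congr 1
    funext v
    rw [← hN]
    exact hSb v
  have hcommv : ∀ v, ∀ x ∈ ⁅N, N⁆, x • v = v → x ∈ ⁅R v, R v⁆ := by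
    intro v x hx hxv
    have h1 := Pool.Agent.N509.TK.h1 hT hact N (by
      intro v u hvu y _ hyu hy
      rw [hSb] at hy
      exact hE v u hvu y hyu.1 hy) v (x := x)
        (by rw [hSb]; exact hst (Subgroup.commutator_le_self N hx) hxv) (by rw [hsup]; exact hx)
    rwa [hSb] at h1
  have hcomme : ∀ u v, T.Adj u v → ∀ x ∈ ⁅N, N⁆, x • u = u → x • v = v → x = 1 :=
    fun u v huv x hx hxu hxv => hE u v huv x hxv (hcommv u x hx hxu)
  -- the orbit of `s`
  obtain ⟨O, hO⟩ : ∃ O : V → Prop, ∀ w, O w ↔ ∃ n ∈ ⨆ v, R v, w = n • s :=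
    ⟨fun w => ∃ n ∈ ⨆ v, R v, w = n • s, fun w => Iff.rfl⟩
  have hsO : O s := (hO s).2 ⟨1, one_mem _, (one_smul G s).symm⟩
  have hOG : ∀ (g : G) (w : V), O w → O (g • w) := by
    intro g w hw
    obtain ⟨n, hn, rfl⟩ := (hO w).1 hw
    obtain ⟨k, hk, h1⟩ := hs g
    rw [← hN] at hn hk
    refine (hO _).2 ⟨g * n * g⁻¹ * k, ?_, ?_⟩
    · rw [← hN]
      exact mul_mem (hNn.conj_mem n hn g) hk
    · rw [mul_smul (g * n * g⁻¹) k, ← h1, ← mul_smul, ← mul_smul, inv_mul_cancel_right]
  have habO : ∀ u, O u → ∀ x ∈ R u, ∀ y ∈ R u, x * y = y * x := by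
    intro u hu x hx y hy
    obtain ⟨n, hn, rfl⟩ := (hO u).1 hu
    have h1 := hR.eqv n⁻¹ _ x hx
    have h2 := hR.eqv n⁻¹ _ y hy
    rw [inv_smul_smul] at h1 h2
    have h3 := hab _ h1 _ h2
    have h4 : x * y = n * (n⁻¹ * x * n⁻¹⁻¹ * (n⁻¹ * y * n⁻¹⁻¹)) * n⁻¹ := by group
    rw [h4, h3]
    group
  have hfreeO : ∀ u, O u → ∀ x ∈ ⁅N, N⁆, x • u = u → x = 1 := by
    intro u hu x hx hxu
    have h1 : ⁅R u, R u⁆ = ⊥ := by
      rw [Subgroup.commutator_eq_bot_iff_le_centralizer]
      intro x hx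
      rw [Subgroup.mem_centralizer_iff]
      intro y hy
      exact habO u hu y hy x hx
    have h2 := hcommv u x hx hxu
    rwa [h1, Subgroup.mem_bot] at h2
  have hr := br_LR (R := R) (O := O) hR hOG
  let _ := cyAct hact hr
  have hcs : Nat' hact (br R O) := fun g {v a} h => rfl
  obtain ⟨M, hMd⟩ : ∃ M : Subgroup G, M = Mg T (br R O) R := ⟨_, rfl⟩
  have hMn : M.Normal := hMd ▸ Mg_normal hcs hR
  have hMN : M ≤ ⁅N, N⁆ := by
    rw [hMd, hN]
    exact Mg_le
  obtain ⟨P, hP⟩ : ∃ P : Subgroup G, P = R s ⊔ M := ⟨_, rfl⟩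
  have hPn : P.Normal := by
    rw [hP, hMd]
    exact Mp_normal hT hcs hR hq hsS hO hOG
  have hPN : P ≤ N := by
    rw [hP]
    exact sup_le (hRN s) (hMN.trans (Subgroup.commutator_le_self N))
  have hRP : ∀ u, O u → R u ≤ P := by
    intro u hu
    rw [hP, hMd]
    exact all_le hT hcs hR hq hsS hO hOG hu
  have hPR : ∀ u, O u → P ≤ R u ⊔ M := by
    intro u hu
    rw [hP]
    refine sup_le ?_ le_sup_right
    rw [hMd]
    exact all_le' hT hcs hR hq hsS hO hOG hu hsO
  -- the quotient by `P`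
  have hBT := BB_tree hT hr
  obtain ⟨S', hS'⟩ := Tv.exists (T := BB T (br R O)) (R := Sb (V := V ⊕ Cyl T (br R O)) P) hBT
  have hsupP : (⨆ x : V ⊕ Cyl T (br R O), Sb P x) = P := by
    apply le_antisymm (Sb_le P)
    have h1 : R s ≤ ⨆ x : V ⊕ Cyl T (br R O), Sb P x := by
      refine le_trans ?_ (le_iSup (fun x : V ⊕ Cyl T (br R O) => Sb P x) (Sum.inl s))
      intro x hx
      exact ⟨congrArg Sum.inl (hR.fix s x hx), hRP s hsO hx⟩
    have h2 : M ≤ ⨆ x : V ⊕ Cyl T (br R O), Sb P x := by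
      rw [hMd]
      refine iSup_le fun y => ?_
      refine le_trans ?_ (le_iSup (fun x : V ⊕ Cyl T (br R O) => Sb P x) (Sum.inr y))
      intro x hx
      refine ⟨congrArg Sum.inr (Nc_fix hcs hR (fun v a x hx h => hRr hx h)
        (Subgroup.commutator_le_self _ hx)), ?_⟩
      rw [hP]
      refine Subgroup.mem_sup_right ?_
      rw [hMd]
      exact le_Mg y hx
    conv_lhs => rw [hP]
    exact sup_le h1 h2
  have hqP : Tq (BB T (br R O)) P S' := by
    have h1 := Tq.of_Sb hBT (BB_smul hcs) P hS'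
    rwa [hsupP] at h1
  have hcyc := cycC hC hM hT hact hR hE hV
  rw [← hN] at hcyc
  have hCN : C N := C_le hC.base le_sup_left (hcyc 1)
  let _ := ga hqP
  refine hA G (G ⧸ P) S' ((BB T (br R O)).induce S') (QuotientGroup.mk' P)
    (QuotientGroup.mk'_surjective P)
    (Group.fg_of_surjective (f := QuotientGroup.mk' P) (QuotientGroup.mk'_surjective P))
    (hqP.isTree hBT) ?_ ?_ ?_ ⟨3, m, ?_⟩ ?_ ?_
  · intro g x x' h
    exact sm_adj (BB_smul hcs) hqP g x x' h
  · rintro g x x' hxx ⟨h1, _⟩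
    have h1 : sm hqP g x = x' := h1
    have hxx : (BB T (br R O)).Adj (x : V ⊕ Cyl T (br R O)) x' := hxx
    obtain ⟨h, hh, h2⟩ := sm_spec hqP g x
    rw [h1] at h2
    rcases BB_cases hxx with ⟨v, y, h3, h4, _⟩ | ⟨v, y, h3, h4, _⟩
    · rw [h3, h4] at h2
      exact absurd h2 (by simp)
    · rw [h3, h4] at h2
      exact absurd h2 (by simp)
  · intro g hg x
    exact sm_eq hqP ((QuotientGroup.eq_one_iff g).1 hg) rfl
  · -- acylindricity
    -- the edges of the orbit of `s`
    have edge : ∀ (x x' : S') (u : V) (y : Cyl T (br R O)), (x : V ⊕ Cyl T (br R O)) = Sum.inl u →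
        (x' : V ⊕ Cyl T (br R O)) = Sum.inr y → Mem y u → O u → ∀ F : Finset (G ⧸ P),
        (∀ q ∈ F, ∃ g, QuotientGroup.mk' P g = q ∧ sm hqP g x = x ∧ sm hqP g x' = x') →
        F.card ≤ m := by
      intro x x' u y hx hx' hyu hu F hF
      obtain ⟨a, ha, hya⟩ := hyu
      refine (hm u a ha).img (hRP u hu) F fun q hq' => ?_
      obtain ⟨g, rfl, hgx, hgx'⟩ := hF q hq'
      have hadj : (BB T (br R O)).Adj (x : V ⊕ Cyl T (br R O)) x' := by
        rw [hx, hx']
        exact BB_adj.2 ⟨a, ha, hya⟩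
      obtain ⟨h, hh, h1, h2⟩ := sm_edge (BB_smul hcs) hqP hadj hgx hgx'
      rw [hx] at h1
      rw [hx'] at h2
      have h1 : (h⁻¹ * g) • u = u := Sum.inl_injective h1
      have h2 : (h⁻¹ * g) • y = y := Sum.inr_injective h2
      obtain ⟨k, hk⟩ : ∃ k, k = h⁻¹ * g := ⟨_, rfl⟩
      rw [← hk] at h1 h2
      have h3 := hact k u a ha
      rw [h1] at h3
      have h4 : cy (br R O) ha = cy (br R O) h3 := by
        rw [hya, ← h2, ← hya, hcs k ha]
        exact cy_congr _ _ h1 rfl
      obtain ⟨n, hn, h5⟩ := gl hT hr ha h3 h4 hu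
      refine ⟨n⁻¹ * k, ⟨?_, ?_⟩, ?_⟩
      · show (n⁻¹ * k) • u = u
        rw [mul_smul, h1, inv_smul_eq_iff, hR.fix u n hn]
      · show (n⁻¹ * k) • a = a
        rw [mul_smul, ← h5, inv_smul_smul]
      · refine QuotientGroup.eq.2 ?_
        have h6 : (n⁻¹ * k)⁻¹ * g = k⁻¹ * n * k⁻¹⁻¹ * (k⁻¹ * h * k⁻¹⁻¹) * 1 := by
          rw [hk]
          group
        rw [h6, mul_one]
        refine mul_mem (hPn.conj_mem _ (hRP u hu hn) _) ?_
        have h7 : k⁻¹ * h * k⁻¹⁻¹ ∈ P := hPn.conj_mem _ hh _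
        exact h7
    intro x3 x0 p hp hlen F hF
    cases p with
    | nil => exact absurd hlen (by simp)
    | @cons _ x1 _ h01 p =>
    cases p with
    | nil => exact absurd hlen (by simp)
    | @cons _ x2 _ h12 p =>
    cases p with
    | nil => exact absurd hlen (by simp)
    | @cons _ x4 _ h24 p =>
    have hnd := hp.support_nodup
    simp only [Walk.support_cons, List.nodup_cons, List.mem_cons, not_or] at hnd
    obtain ⟨⟨n01, n02, n0⟩, ⟨n12, n1⟩, n2, _⟩ := hnd
    have n14 : x1 ≠ x4 := fun h => n1 (h ▸ Walk.start_mem_support p)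
    have h01 : (BB T (br R O)).Adj (x3 : V ⊕ Cyl T (br R O)) x1 := h01
    have h12 : (BB T (br R O)).Adj (x1 : V ⊕ Cyl T (br R O)) x2 := h12
    have h24 : (BB T (br R O)).Adj (x2 : V ⊕ Cyl T (br R O)) x4 := h24
    have hF' : ∀ q ∈ F, ∃ g, QuotientGroup.mk' P g = q ∧ sm hqP g x1 = x1 ∧ sm hqP g x2 = x2 := by
      intro q hq'
      obtain ⟨g, hgq, hg⟩ := hF q hq'
      exact ⟨g, hgq, hg x1 (by simp [Walk.support_cons]), hg x2 (by simp [Walk.support_cons])⟩
    rcases BB_cases h12 with ⟨u, y, hu, hy, hyu⟩ | ⟨u, y, hu, hy, hyu⟩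
    · refine edge x1 x2 u y hu hy hyu ?_ F hF'
      by_contra hnO
      rcases BB_cases h01 with ⟨v, y', hv, hy', hyv⟩ | ⟨v, y', hv, hy', hyv⟩
      · rw [hu] at hy'
        exact absurd hy' (by simp)
      · rw [hu] at hv
        have hv := Sum.inl_injective hv
        subst hv
        have h5 := cy_one hnO hyu hyv
        subst h5
        exact n02 (Subtype.ext (hy'.trans hy.symm))
    · refine edge x2 x1 u y hu hy hyu ?_ F fun q hq' => ?_
      · by_contra hnO
        rcases BB_cases h24 with ⟨v, y', hv, hy', hyv⟩ | ⟨v, y', hv, hy', hyv⟩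
        · rw [hu] at hv
          have hv := Sum.inl_injective hv
          subst hv
          have h5 := cy_one hnO hyu hyv
          subst h5
          exact n14 (Subtype.ext (hy.trans hy'.symm))
        · rw [hu] at hy'
          exact absurd hy' (by simp)
      · obtain ⟨g, hgq, h1, h2⟩ := hF' q hq'
        exact ⟨g, hgq, h2, h1⟩
  · -- the stabilizers of the vertices
    have hcyl : ∀ y : Cyl T (br R O), C ↥(N ⊔ MulAction.stabilizer G y) := by
      intro y
      obtain ⟨u, hu, hyu⟩ := meets hT hsO y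
      have hyu' := hyu
      obtain ⟨a, ha, hya⟩ := hyu
      have hle : N ⊔ MulAction.stabilizer G y ≤ N ⊔ Eg G u a := by
        refine sup_le le_sup_left ?_
        intro g hg
        have hg : g • y = y := hg
        have hyg : Mem y (g • u) := by
          have h1 := Mem_smul hcs g hyu'
          rwa [hg] at h1
        obtain ⟨x, hx, hxu⟩ := trans_y hT hcs hR hq hsS hO hOG hu (hOG g u hu) hyu' hyg
        have hxN : x ∈ N := by
          rw [hN]
          exact Nc_le y hx
        obtain ⟨k, hk⟩ : ∃ k, k = x⁻¹ * g := ⟨_, rfl⟩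
        have h1 : k • u = u := by
          rw [hk, mul_smul, ← hxu, inv_smul_smul]
        have h2 : k • y = y := by
          rw [hk, mul_smul, hg, inv_smul_eq_iff]
          exact (Nc_fix hcs hR (fun v a x hx h => hRr hx h) hx).symm
        have h3 := hact k u a ha
        rw [h1] at h3
        have h4 : cy (br R O) ha = cy (br R O) h3 := by
          rw [hya, ← h2, ← hya, hcs k ha]
          exact cy_congr _ _ h1 rfl
        obtain ⟨n, hn, h5⟩ := gl hT hr ha h3 h4 hu
        have h6 : g = x * n * (n⁻¹ * k) := by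
          rw [hk]
          group
        rw [h6]
        refine mul_mem (Subgroup.mem_sup_left (mul_mem hxN (hRN u hn)))
          (Subgroup.mem_sup_right ⟨?_, ?_⟩)
        · show (n⁻¹ * k) • u = u
          rw [mul_smul, h1, inv_smul_eq_iff, hR.fix u n hn]
        · show (n⁻¹ * k) • a = a
          rw [mul_smul, ← h5, inv_smul_smul]
      refine C_le hC.base hle ?_
      refine Pool.Agent.Y529.FJ.up hC.base le_sup_left ?_ hCN
      rw [Subgroup.relIndex_sup_left]
      exact fun h0 => (hm u a ha).ne (Nat.eq_zero_of_zero_dvd (by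
        have h1 := Subgroup.relIndex_dvd_of_le_left (Eg G u a) (hRN u)
        rwa [h0] at h1))
    intro x
    have hle : ∀ (H : Subgroup G), MulAction.stabilizer G (x : V ⊕ Cyl T (br R O)) ≤ H → P ≤ H →
        MulAction.stabilizer G x ≤ H := by
      intro H h1 h2 g hg
      obtain ⟨h, hh, h3⟩ := sm_vertex hqP (g := g) (s := x) hg
      have h4 := mul_mem (h2 hh) (h1 h3)
      rwa [mul_inv_cancel_left] at h4
    obtain ⟨x, hxS⟩ := x
    rcases x with u | y
    · by_cases hu : O u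
      · refine C_le hC.base (hle (M ⊔ MulAction.stabilizer G u) ?_ ?_)
          (C_free_sup hC hT hact hV M ?_ u ?_)
        · intro g hg
          exact Subgroup.mem_sup_right (show g • u = u from Sum.inl_injective hg)
        · refine (hPR u hu).trans (sup_le ?_ le_sup_left)
          intro g hg
          exact Subgroup.mem_sup_right (hR.fix u g hg)
        · intro u v huv g hg hgu hgv
          exact hcomme u v huv g (hMN hg) hgu hgv
        · intro g hg hgu
          exact hfreeO u hu g (hMN hg) hgu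
      · have hus : u ≠ s := fun h => hu (h ▸ hsO)
        obtain ⟨a, ha⟩ := St_exists hT hus
        refine C_le hC.base (hle (N ⊔ MulAction.stabilizer G (cy (br R O) ha.1)) ?_ ?_)
          (hcyl (cy (br R O) ha.1))
        · intro g hg
          have hgu : g • u = u := Sum.inl_injective hg
          refine Subgroup.mem_sup_right ?_
          show g • (cy (br R O) ha.1) = cy (br R O) ha.1
          have h1 : Mem (g • (cy (br R O) ha.1)) u := by
            have h2 := Mem_smul hcs g (Mem_cy (r := br R O) ha.1)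
            rwa [hgu] at h2
          exact cy_one hu h1 (Mem_cy ha.1)
        · exact hPN.trans le_sup_left
    · refine C_le hC.base (hle (N ⊔ MulAction.stabilizer G y) ?_ ?_) (hcyl y)
      · intro g hg
        exact Subgroup.mem_sup_right (show g • y = y from Sum.inr_injective hg)
      · exact hPN.trans le_sup_left
  · intro q
    obtain ⟨g, rfl⟩ := QuotientGroup.mk'_surjective P q
    have h2 : (Subgroup.zpowers (QuotientGroup.mk' P g)).comap (QuotientGroup.mk' P) =
        P ⊔ Subgroup.zpowers g := by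
      rw [← MonoidHom.map_zpowers, Subgroup.comap_map_eq, QuotientGroup.ker_mk', sup_comm]
    rw [h2]
    exact C_le hC.base (sup_le_sup_right hPN _) (hcyc g)

end Run7.h371.FK
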